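import Mathlib

/-! Piece P5 GAUSSVEC of MP_b30792_pr (for helper98): Kahane's comparison inequality for the square
root and a replica bound for the expectation of the logarithm, for finite Gaussian families, by a
discrete (small step) argument. -/

set_option autoImplicit false

namespace Pool.Agent.Helper98.LogPoly

open MeasureTheory ProbabilityTheory

namespace GV

variable {ι : Type*} [Fintype ι]

/-! ### elementary inequalities -/

theorem abs_exp_sub_one_le' (u : ℝ) : |Real.exp u - 1| ≤ |u| * Real.exp |u| := by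
  rcases le_total 0 u with hu | hu
  · rw [abs_of_nonneg hu, abs_of_nonneg (by linarith [Real.one_le_exp hu])]
    have h1 := Real.add_one_le_exp (-u)
    have h2 : Real.exp u * Real.exp (-u) = 1 := by rw [← Real.exp_add]; simp
    nlinarith [Real.exp_pos u]
  · rw [abs_of_nonpos hu, abs_of_nonpos (by linarith [Real.exp_le_one_iff.mpr hu])]
    have h1 := Real.add_one_le_exp u
    have h2 := Real.one_le_exp (show (0 : ℝ) ≤ -u by linarith)
    nlinarith

theorem sqrt_taylor (z : ℝ) (hz : 0 ≤ z) :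
    |Real.sqrt z - 1 - (z - 1) / 2 + (z - 1) ^ 2 / 8| ≤ 3 / 8 * |z - 1| ^ 3 := by
  set w := Real.sqrt z with hw
  have hw0 : 0 ≤ w := Real.sqrt_nonneg z
  have hzw : z = w ^ 2 := by rw [hw, Real.sq_sqrt hz]
  have h1 : w - 1 - (z - 1) / 2 + (z - 1) ^ 2 / 8 = (w - 1) ^ 3 * ((w + 3) / 8) := by
    rw [hzw]; ring
  have h2 : z - 1 = (w - 1) * (w + 1) := by rw [hzw]; ring
  rw [h1, h2, abs_mul, abs_mul, mul_pow, abs_pow, abs_of_nonneg (show (0 : ℝ) ≤ (w + 3) / 8 by linarith),
    abs_of_nonneg (show (0 : ℝ) ≤ w + 1 by linarith)]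
  have h3 : (w + 3) / 8 ≤ 3 / 8 * (w + 1) ^ 3 := by nlinarith [mul_nonneg hw0 hw0, pow_nonneg hw0 3]
  calc |w - 1| ^ 3 * ((w + 3) / 8) ≤ |w - 1| ^ 3 * (3 / 8 * (w + 1) ^ 3) := by gcongr
    _ = 3 / 8 * (|w - 1| ^ 3 * (w + 1) ^ 3) := by ring

/-- `log z ≥ (z-1) - (z-1)²/2 - |z-1|³/(3z)` for `z > 0`. -/
theorem log_taylor (z : ℝ) (hz : 0 < z) :
    (z - 1) - (z - 1) ^ 2 / 2 - |z - 1| ^ 3 / (3 * z) ≤ Real.log z := by
  rcases le_total 1 z with h | h
  · -- monotone on [1, ∞)
    have hmono : MonotoneOn (fun x : ℝ => Real.log x - ((x - 1) - (x - 1) ^ 2 / 2)) (Set.Ici 1) := by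
      apply monotoneOn_of_deriv_nonneg (convex_Ici 1)
      · apply ContinuousOn.sub
        · exact Real.continuousOn_log.mono (fun x hx => by
            simp only [Set.mem_Ici] at hx
            simp only [Set.mem_compl_iff, Set.mem_singleton_iff]
            linarith)
        · fun_prop
      · intro x hx
        simp only [interior_Ici, Set.mem_Ioi] at hx
        exact ((Real.differentiableAt_log (by linarith)).sub (by fun_prop)).differentiableWithinAt
      · intro x hx
        simp only [interior_Ici, Set.mem_Ioi] at hx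
        have hx0 : (0 : ℝ) < x := by linarith
        have hd : HasDerivAt (fun x : ℝ => Real.log x - ((x - 1) - (x - 1) ^ 2 / 2))
            (x⁻¹ - (1 - (x - 1))) x := by
          have h1 : HasDerivAt (fun x : ℝ => (x - 1) - (x - 1) ^ 2 / 2) (1 - (x - 1)) x := by
            have h2 : HasDerivAt (fun x : ℝ => x - 1) 1 x := (hasDerivAt_id x).sub_const 1
            have h3 := (h2.pow 2).div_const 2
            convert! h2.sub h3 using 1
            simp
          exact (Real.hasDerivAt_log hx0.ne').sub h1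
        rw [hd.deriv]
        have : x⁻¹ - (1 - (x - 1)) = (x - 1) ^ 2 / x := by field_simp; ring
        rw [this]
        positivity
    have h1 := hmono (Set.mem_Ici.mpr le_rfl) (Set.mem_Ici.mpr h) h
    simp only [Real.log_one, sub_self] at h1
    have h2 : 0 ≤ |z - 1| ^ 3 / (3 * z) := by positivity
    norm_num at h1
    linarith
  · have hanti : AntitoneOn (fun x : ℝ => Real.log x - ((x - 1) - (x - 1) ^ 2 / 2)
        + (1 - x) ^ 3 / (3 * x)) (Set.Ioc 0 1) := by
      have hd : ∀ x : ℝ, 0 < x → HasDerivAt (fun x : ℝ => Real.log x - ((x - 1) - (x - 1) ^ 2 / 2)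
          + (1 - x) ^ 3 / (3 * x)) (-(1 - x) ^ 3 / (3 * x ^ 2)) x := by
        intro x hx0
        have h2 : HasDerivAt (fun x : ℝ => x - 1) 1 x := (hasDerivAt_id x).sub_const 1
        have h2' : HasDerivAt (fun x : ℝ => 1 - x) (-1) x := (hasDerivAt_id x).const_sub 1
        have h3 := (h2.pow 2).div_const 2
        have h4 := (h2'.pow 3).div ((hasDerivAt_id x).const_mul 3) (by simp; linarith)
        have h5 := ((Real.hasDerivAt_log hx0.ne').sub (h2.sub h3)).add h4
        convert! h5 using 1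
        simp only [Pi.pow_apply, id_eq]
        field_simp
        ring
      apply antitoneOn_of_deriv_nonpos (convex_Ioc 0 1)
      · intro x hx
        exact (hd x hx.1).continuousAt.continuousWithinAt
      · intro x hx
        rw [interior_Ioc] at hx
        exact (hd x hx.1).differentiableAt.differentiableWithinAt
      · intro x hx
        rw [interior_Ioc] at hx
        rw [(hd x hx.1).deriv]
        have h1 : 0 ≤ (1 - x) ^ 3 := pow_nonneg (by linarith [hx.2]) 3
        have h2 : 0 < 3 * x ^ 2 := by nlinarith [hx.1, sq_pos_of_pos hx.1]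
        exact div_nonpos_of_nonpos_of_nonneg (by linarith) h2.le
    have h1 := hanti (Set.mem_Ioc.mpr ⟨hz, h⟩) (Set.mem_Ioc.mpr ⟨one_pos, le_rfl⟩) h
    norm_num at h1
    have h2 : |z - 1| ^ 3 = (1 - z) ^ 3 := by
      rw [abs_of_nonpos (by linarith)]
      ring
    rw [h2]
    linarith

/-! ### centred Gaussian measures on `ι → ℝ` -/

/-- centred Gaussian measure with covariance `K` -/
structure CG (μ : Measure (ι → ℝ)) (K : ι → ι → ℝ) : Prop where
  gauss : IsGaussian μ
  mean : ∀ i, ∫ y, y i ∂μ = 0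
  cov : ∀ i j, ∫ y, y i * y j ∂μ = K i j

/-- the law of `√s X` for `X` of law `μ` -/
noncomputable def sc (s : ℝ) (μ : Measure (ι → ℝ)) : Measure (ι → ℝ) :=
  μ.map (fun y => Real.sqrt s • y)

theorem integrable_exp_norm {μ : Measure (ι → ℝ)} (hμ : IsGaussian μ) (a : ℝ) :
    Integrable (fun y : ι → ℝ => Real.exp (a * ‖y‖)) μ := by
  obtain ⟨C, hC, hint⟩ := IsGaussian.exists_integrable_exp_sq μ
  refine (hint.const_mul (Real.exp (a ^ 2 / (4 * C)))).mono' (by fun_prop) (ae_of_all _ fun y => ?_)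
  rw [Real.norm_eq_abs, Real.abs_exp, ← Real.exp_add]
  apply Real.exp_le_exp.mpr
  have h : 0 ≤ (a / (2 * C) - ‖y‖) ^ 2 * C := by positivity
  have h2 : (a / (2 * C) - ‖y‖) ^ 2 * C = a ^ 2 / (4 * C) + C * ‖y‖ ^ 2 - a * ‖y‖ := by
    field_simp
    ring
  linarith

theorem memLp_coord {μ : Measure (ι → ℝ)} (hμ : IsGaussian μ) (i : ι) : MemLp (fun y : ι → ℝ => y i) 2 μ :=
  IsGaussian.memLp_dual μ (ContinuousLinearMap.proj (R := ℝ) i) 2 (by norm_num)

theorem CG.integral_exp {μ : Measure (ι → ℝ)} {K : ι → ι → ℝ} (h : CG μ K) (i j : ι) (a b : ℝ) :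
    ∫ y, Real.exp (a * y i + b * y j) ∂μ
      = Real.exp ((a ^ 2 * K i i + 2 * a * b * K i j + b ^ 2 * K j j) / 2) := by
  have := h.gauss
  let L : StrongDual ℝ (ι → ℝ) := a • ContinuousLinearMap.proj (R := ℝ) i + b • ContinuousLinearMap.proj (R := ℝ) j
  have hL : ∀ y : ι → ℝ, L y = a * y i + b * y j := fun y => by simp [L]
  have hi := memLp_coord h.gauss i
  have hj := memLp_coord h.gauss j
  have hii : Integrable (fun y : ι → ℝ => y i) μ := hi.integrable (by norm_num)
  have hij : Integrable (fun y : ι → ℝ => y j) μ := hj.integrable (by norm_num)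
  have hmean : μ[L] = 0 := by
    simp only [hL]
    rw [integral_add (hii.const_mul a) (hij.const_mul b), integral_const_mul, integral_const_mul,
      h.mean, h.mean]
    ring
  have hvar : Var[L; μ] = a ^ 2 * K i i + 2 * a * b * K i j + b ^ 2 * K j j := by
    rw [variance_of_integral_eq_zero L.continuous.aemeasurable hmean]
    have e : ∀ y : ι → ℝ, (L y) ^ 2 = a ^ 2 * (y i * y i) + 2 * a * b * (y i * y j) + b ^ 2 * (y j * y j) := by
      intro y; rw [hL]; ring
    simp only [e]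
    have h1 : Integrable (fun y : ι → ℝ => a ^ 2 * (y i * y i)) μ := (hi.integrable_mul hi).const_mul _
    have h2 : Integrable (fun y : ι → ℝ => 2 * a * b * (y i * y j)) μ := (hi.integrable_mul hj).const_mul _
    have h3 : Integrable (fun y : ι → ℝ => b ^ 2 * (y j * y j)) μ := (hj.integrable_mul hj).const_mul _
    have h12 : Integrable (fun y : ι → ℝ => a ^ 2 * (y i * y i) + 2 * a * b * (y i * y j)) μ := h1.add h2
    rw [integral_add h12 h3, integral_add h1 h2, integral_const_mul, integral_const_mul,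
      integral_const_mul, h.cov, h.cov, h.cov]
  have hmgf := mgf_gaussianReal (X := L) (p := μ) (IsGaussian.map_eq_gaussianReal L) 1
  rw [mgf, hmean, hvar] at hmgf
  simp only [one_mul, hL] at hmgf
  rw [hmgf]
  congr 1
  have hv : 0 ≤ a ^ 2 * K i i + 2 * a * b * K i j + b ^ 2 * K j j := by
    rw [← hvar]; exact variance_nonneg _ _
  rw [Real.coe_toNNReal _ hv]
  ring

omit [Fintype ι] in
theorem integral_sc {s : ℝ} {μ : Measure (ι → ℝ)} {f : (ι → ℝ) → ℝ}
    (hf : Measurable f) : ∫ x, f x ∂(sc s μ) = ∫ y, f (Real.sqrt s • y) ∂μ := by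
  unfold sc
  rw [integral_map (by fun_prop) hf.aestronglyMeasurable]

theorem isGaussian_sc (s : ℝ) {μ : Measure (ι → ℝ)} (h : IsGaussian μ) : IsGaussian (sc s μ) := by
  have : sc s μ = μ.map (Real.sqrt s • ContinuousLinearMap.id ℝ (ι → ℝ)) := by
    unfold sc
    congr 1
  rw [this]
  infer_instance

theorem CG.sc {s : ℝ} (hs : 0 ≤ s) {μ : Measure (ι → ℝ)} {K : ι → ι → ℝ} (h : CG μ K) :
    CG (sc s μ) (fun i j => s * K i j) := by
  refine ⟨isGaussian_sc s h.gauss, fun i => ?_, fun i j => ?_⟩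
  · rw [integral_sc (measurable_pi_apply i)]
    simp only [Pi.smul_apply, smul_eq_mul]
    rw [integral_const_mul, h.mean, mul_zero]
  · rw [integral_sc (f := fun y => y i * y j) ((measurable_pi_apply i).mul (measurable_pi_apply j))]
    simp only [Pi.smul_apply, smul_eq_mul, ← h.cov i j]
    rw [← integral_const_mul]
    congr 1
    funext y
    have := Real.mul_self_sqrt hs
    linear_combination (y i * y j) * this

theorem CG.mean_id {μ : Measure (ι → ℝ)} {K : ι → ι → ℝ} (h : CG μ K) (L : StrongDual ℝ (ι → ℝ)) :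
    μ[L] = 0 := by
  have := h.gauss
  rw [IsGaussian.integral_dual]
  have : ∫ x, x ∂μ = 0 := by
    funext i
    have := (ContinuousLinearMap.proj (R := ℝ) (φ := fun _ : ι => ℝ) i).integral_comp_comm (IsGaussian.integrable_id (μ := μ))
    simp only [id_eq, ContinuousLinearMap.proj_apply] at this
    rw [← this, h.mean]
    rfl
  rw [this, map_zero]

theorem charFunDual_sc {s : ℝ} (hs : 0 ≤ s) {μ : Measure (ι → ℝ)} {K : ι → ι → ℝ} (h : CG μ K)
    (L : StrongDual ℝ (ι → ℝ)) :
    charFunDual (sc s μ) L = Complex.exp (-(s * Var[L; μ]) / 2) := by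
  have := h.gauss
  have h1 : charFunDual (sc s μ) L = charFunDual μ (Real.sqrt s • L) := by
    rw [charFunDual_apply, charFunDual_apply]
    unfold sc
    rw [integral_map (by fun_prop) (by fun_prop)]
    simp
  rw [h1, IsGaussian.charFunDual_eq]
  have h2 : μ[Real.sqrt s • L] = 0 := h.mean_id _
  have h3 : Var[(Real.sqrt s • L : StrongDual ℝ (ι → ℝ)); μ] = s * Var[L; μ] := by
    have : ((Real.sqrt s • L : StrongDual ℝ (ι → ℝ)) : (ι → ℝ) → ℝ) = Real.sqrt s • (L : (ι → ℝ) → ℝ) := by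
      funext y; simp
    rw [this, variance_smul, Real.sq_sqrt hs]
  have h4 : (∫ x, ((Real.sqrt s • L) x : ℂ) ∂μ) = ((μ[Real.sqrt s • L] : ℝ) : ℂ) := by
    rw [← integral_complex_ofReal]
  simp only [h3]
  rw [show (∫ x, ((↑((Real.sqrt s • L) x) : ℝ) : ℂ) ∂μ) = 0 by rw [integral_complex_ofReal, h2]; simp]
  congr 1
  push_cast
  ring

theorem sc_add {s t : ℝ} (hs : 0 ≤ s) (ht : 0 ≤ t) {μ : Measure (ι → ℝ)} {K : ι → ι → ℝ} (h : CG μ K) :
    sc (s + t) μ = (sc s μ).conv (sc t μ) := by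
  have := h.gauss
  have := isGaussian_sc s h.gauss
  have := isGaussian_sc t h.gauss
  have := isGaussian_sc (s + t) h.gauss
  apply Measure.ext_of_charFunDual
  funext L
  rw [charFunDual_conv, charFunDual_sc hs h, charFunDual_sc ht h, charFunDual_sc (add_nonneg hs ht) h,
    ← Complex.exp_add]
  congr 1
  push_cast
  ring

/-! ### one small step -/

/-- the normalised partition function `∑ q_i e^{x_i - s k / 2}` -/
noncomputable def U (q : ι → ℝ) (k s : ℝ) (x : ι → ℝ) : ℝ := ∑ i, q i * Real.exp (x i - s * k / 2)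

theorem measurable_U (q : ι → ℝ) (k s : ℝ) : Measurable (U q k s) := by
  unfold U
  fun_prop

theorem intg {μ : Measure (ι → ℝ)} (hμ : IsGaussian μ) {f : (ι → ℝ) → ℝ} (hf : Measurable f) (A a : ℝ)
    (h : ∀ x, |f x| ≤ A * Real.exp (a * ‖x‖)) : Integrable f μ :=
  ((integrable_exp_norm hμ a).const_mul A).mono' hf.aestronglyMeasurable (ae_of_all _ fun x => by
    rw [Real.norm_eq_abs]; exact h x)

theorem abs_coord_le (x : ι → ℝ) (i : ι) : |x i| ≤ ‖x‖ := by
  rw [← Real.norm_eq_abs]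
  exact norm_le_pi_norm x i

theorem U_bd {q : ι → ℝ} (hq0 : ∀ i, 0 ≤ q i) (hq1 : ∑ i, q i = 1) {k s : ℝ} (hk : 0 ≤ k) (hs0 : 0 ≤ s)
    (hs1 : s ≤ 1) (y : ι → ℝ) :
    |U q k s (Real.sqrt s • y) - 1| ≤ Real.sqrt s * ((‖y‖ + k / 2) * Real.exp (‖y‖ + k / 2)) ∧
      Real.exp (-(‖y‖ + k / 2)) ≤ U q k s (Real.sqrt s • y) := by
  have hr0 : 0 ≤ Real.sqrt s := Real.sqrt_nonneg s
  have hr1 : Real.sqrt s ≤ 1 := Real.sqrt_le_iff.mpr ⟨by norm_num, by simpa using hs1⟩
  have hss : s = Real.sqrt s * Real.sqrt s := (Real.mul_self_sqrt hs0).symm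
  have hR0 : 0 ≤ ‖y‖ + k / 2 := by positivity
  have hu : ∀ i, |Real.sqrt s * y i - s * k / 2| ≤ Real.sqrt s * (‖y‖ + k / 2) := by
    intro i
    have h1 := abs_coord_le y i
    have h2 : |Real.sqrt s * y i| ≤ Real.sqrt s * ‖y‖ := by
      rw [abs_mul, abs_of_nonneg hr0]
      gcongr
    have h3 : s * k / 2 ≤ Real.sqrt s * (k / 2) := by
      have : s ≤ Real.sqrt s := by nlinarith
      nlinarith
    have h4 : 0 ≤ s * k / 2 := by positivity
    calc |Real.sqrt s * y i - s * k / 2| ≤ |Real.sqrt s * y i| + |s * k / 2| := abs_sub _ _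
      _ ≤ Real.sqrt s * ‖y‖ + Real.sqrt s * (k / 2) := by rw [abs_of_nonneg h4]; linarith
      _ = _ := by ring
  have hu' : ∀ i, |Real.sqrt s * y i - s * k / 2| ≤ ‖y‖ + k / 2 := fun i =>
    (hu i).trans (by nlinarith)
  constructor
  · have h1 : U q k s (Real.sqrt s • y) - 1
        = ∑ i, q i * (Real.exp (Real.sqrt s * y i - s * k / 2) - 1) := by
      unfold U
      simp only [Pi.smul_apply, smul_eq_mul, mul_sub, mul_one, Finset.sum_sub_distrib, hq1]
    rw [h1]
    calc |∑ i, q i * (Real.exp (Real.sqrt s * y i - s * k / 2) - 1)|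
        ≤ ∑ i, |q i * (Real.exp (Real.sqrt s * y i - s * k / 2) - 1)| := Finset.abs_sum_le_sum_abs _ _
      _ ≤ ∑ i, q i * (Real.sqrt s * ((‖y‖ + k / 2) * Real.exp (‖y‖ + k / 2))) := by
          apply Finset.sum_le_sum
          intro i _
          rw [abs_mul, abs_of_nonneg (hq0 i)]
          apply mul_le_mul_of_nonneg_left _ (hq0 i)
          calc |Real.exp (Real.sqrt s * y i - s * k / 2) - 1|
              ≤ |Real.sqrt s * y i - s * k / 2| * Real.exp |Real.sqrt s * y i - s * k / 2| :=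
                abs_exp_sub_one_le' _
            _ ≤ (Real.sqrt s * (‖y‖ + k / 2)) * Real.exp (‖y‖ + k / 2) := by
                gcongr
                · exact hu i
                · exact hu' i
            _ = _ := by ring
      _ = _ := by rw [← Finset.sum_mul, hq1, one_mul]
  · unfold U
    simp only [Pi.smul_apply, smul_eq_mul]
    calc Real.exp (-(‖y‖ + k / 2)) = ∑ i, q i * Real.exp (-(‖y‖ + k / 2)) := by
          rw [← Finset.sum_mul, hq1, one_mul]
      _ ≤ ∑ i, q i * Real.exp (Real.sqrt s * y i - s * k / 2) := by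
          apply Finset.sum_le_sum
          intro i _
          apply mul_le_mul_of_nonneg_left _ (hq0 i)
          apply Real.exp_le_exp.mpr
          have := (abs_le.mp (hu' i)).1
          linarith

/-- the constant in the error terms -/
noncomputable def DD (μ : Measure (ι → ℝ)) (k : ℝ) : ℝ :=
  ∫ y, ((‖y‖ + k / 2) * Real.exp (‖y‖ + k / 2)) ^ 3 * Real.exp (‖y‖ + k / 2) ∂μ

theorem integrable_DD {μ : Measure (ι → ℝ)} (hμ : IsGaussian μ) {k : ℝ} (hk : 0 ≤ k) :
    Integrable (fun y : ι → ℝ => ((‖y‖ + k / 2) * Real.exp (‖y‖ + k / 2)) ^ 3 * Real.exp (‖y‖ + k / 2)) μ := by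
  apply intg hμ (by fun_prop) (Real.exp (7 * (k / 2))) 7
  intro y
  have hR0 : 0 ≤ ‖y‖ + k / 2 := by positivity
  rw [abs_of_nonneg (by positivity), ← Real.exp_add]
  have h1 : ‖y‖ + k / 2 ≤ Real.exp (‖y‖ + k / 2) := by linarith [Real.add_one_le_exp (‖y‖ + k / 2)]
  calc ((‖y‖ + k / 2) * Real.exp (‖y‖ + k / 2)) ^ 3 * Real.exp (‖y‖ + k / 2)
      ≤ (Real.exp (‖y‖ + k / 2) * Real.exp (‖y‖ + k / 2)) ^ 3 * Real.exp (‖y‖ + k / 2) := by gcongr
    _ = Real.exp (7 * (k / 2) + 7 * ‖y‖) := by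
        rw [← Real.exp_add, ← Real.exp_nat_mul, ← Real.exp_add]
        congr 1
        push_cast
        ring

theorem U_le {q : ι → ℝ} (hq0 : ∀ i, 0 ≤ q i) (hq1 : ∑ i, q i = 1) {k s : ℝ} (hk : 0 ≤ k) (hs0 : 0 ≤ s)
    (x : ι → ℝ) : U q k s x ≤ Real.exp (‖x‖) := by
  unfold U
  calc ∑ i, q i * Real.exp (x i - s * k / 2) ≤ ∑ i, q i * Real.exp ‖x‖ := by
        apply Finset.sum_le_sum
        intro i _
        apply mul_le_mul_of_nonneg_left _ (hq0 i)
        apply Real.exp_le_exp.mpr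
        have := (abs_le.mp (abs_coord_le x i)).2
        have : 0 ≤ s * k := by positivity
        linarith
    _ = _ := by rw [← Finset.sum_mul, hq1, one_mul]

theorem U_ge {q : ι → ℝ} (hq0 : ∀ i, 0 ≤ q i) (hq1 : ∑ i, q i = 1) {k s : ℝ}
    (x : ι → ℝ) : Real.exp (-(‖x‖ + s * k / 2)) ≤ U q k s x := by
  unfold U
  calc Real.exp (-(‖x‖ + s * k / 2)) = ∑ i, q i * Real.exp (-(‖x‖ + s * k / 2)) := by
        rw [← Finset.sum_mul, hq1, one_mul]
    _ ≤ ∑ i, q i * Real.exp (x i - s * k / 2) := by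
        apply Finset.sum_le_sum
        intro i _
        apply mul_le_mul_of_nonneg_left _ (hq0 i)
        apply Real.exp_le_exp.mpr
        have := (abs_le.mp (abs_coord_le x i)).1
        linarith

theorem U_pos {q : ι → ℝ} (hq0 : ∀ i, 0 ≤ q i) (hq1 : ∑ i, q i = 1) {k s : ℝ}
    (x : ι → ℝ) : 0 < U q k s x := (Real.exp_pos _).trans_le (U_ge hq0 hq1 x)

theorem moments {μ : Measure (ι → ℝ)} {K : ι → ι → ℝ} (h : CG μ K) {k : ℝ} (hkk : ∀ i, K i i = k)
    {q : ι → ℝ} (hq0 : ∀ i, 0 ≤ q i) (hq1 : ∑ i, q i = 1) {s : ℝ} (hk : 0 ≤ k) (hs0 : 0 ≤ s) :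
    Integrable (U q k s) (sc s μ) ∧ Integrable (fun x => U q k s x ^ 2) (sc s μ) ∧
    ∫ x, U q k s x ∂(sc s μ) = 1 ∧
    ∫ x, U q k s x ^ 2 ∂(sc s μ) = ∑ i, ∑ j, q i * q j * Real.exp (s * K i j) := by
  have hG := isGaussian_sc s h.gauss
  have hcg := h.sc hs0
  have hint : ∀ (i j : ι) (a b : ℝ), Integrable (fun x : ι → ℝ => Real.exp (a * x i + b * x j)) (sc s μ) := by
    intro i j a b
    apply intg hG (by fun_prop) 1 (|a| + |b|)
    intro x
    rw [abs_of_pos (Real.exp_pos _), one_mul]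
    apply Real.exp_le_exp.mpr
    have h1 : a * x i ≤ |a| * ‖x‖ := (le_abs_self _).trans (by
      rw [abs_mul]; exact mul_le_mul_of_nonneg_left (abs_coord_le x i) (abs_nonneg a))
    have h2 : b * x j ≤ |b| * ‖x‖ := (le_abs_self _).trans (by
      rw [abs_mul]; exact mul_le_mul_of_nonneg_left (abs_coord_le x j) (abs_nonneg b))
    linarith
  have hI1 : Integrable (U q k s) (sc s μ) := by
    apply intg hG (measurable_U q k s) 1 1
    intro x
    rw [abs_of_pos (U_pos hq0 hq1 x), one_mul, one_mul]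
    exact U_le hq0 hq1 hk hs0 x
  have hI2 : Integrable (fun x => U q k s x ^ 2) (sc s μ) := by
    apply intg hG ((measurable_U q k s).pow_const 2) 1 2
    intro x
    have h1 := U_pos hq0 hq1 (k := k) (s := s) x
    rw [abs_of_pos (by positivity), one_mul, two_mul, Real.exp_add]
    have := U_le hq0 hq1 hk hs0 x
    nlinarith [Real.exp_pos ‖x‖]
  refine ⟨hI1, hI2, ?_, ?_⟩
  · unfold U
    rw [integral_finsetSum _ (fun i _ => by
      have := ((hint i i 1 0).const_mul (q i * Real.exp (-(s * k / 2))))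
      refine this.congr (ae_of_all _ fun x => ?_)
      simp only
      rw [mul_assoc, ← Real.exp_add]
      congr 2
      ring)]
    rw [← hq1]
    apply Finset.sum_congr rfl
    intro i _
    rw [integral_const_mul]
    have h1 : ∫ x : ι → ℝ, Real.exp (x i - s * k / 2) ∂(sc s μ)
        = Real.exp (-(s * k / 2)) * ∫ x : ι → ℝ, Real.exp (1 * x i + 0 * x i) ∂(sc s μ) := by
      rw [← integral_const_mul]
      congr 1
      funext x
      rw [← Real.exp_add]
      congr 1
      ring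
    rw [h1, hcg.integral_exp i i 1 0, hkk, ← Real.exp_add]
    have : -(s * k / 2) + (1 ^ 2 * (s * k) + 2 * 1 * 0 * (s * k) + 0 ^ 2 * (s * k)) / 2 = 0 := by ring
    rw [this, Real.exp_zero, mul_one]
  · have e : ∀ x : ι → ℝ, U q k s x ^ 2
        = ∑ i, ∑ j, (q i * q j * Real.exp (-(s * k))) * Real.exp (1 * x i + 1 * x j) := by
      intro x
      unfold U
      rw [sq, Finset.sum_mul_sum]
      apply Finset.sum_congr rfl
      intro i _
      apply Finset.sum_congr rfl
      intro j _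
      have : Real.exp (x i - s * k / 2) * Real.exp (x j - s * k / 2)
          = Real.exp (-(s * k)) * Real.exp (1 * x i + 1 * x j) := by
        rw [← Real.exp_add, ← Real.exp_add]
        congr 1
        ring
      linear_combination (q i * q j) * this
    simp only [e]
    rw [integral_finsetSum _ (fun i _ => integrable_finsetSum _ (fun j _ => (hint i j 1 1).const_mul _))]
    apply Finset.sum_congr rfl
    intro i _
    rw [integral_finsetSum _ (fun j _ => (hint i j 1 1).const_mul _)]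
    apply Finset.sum_congr rfl
    intro j _
    rw [integral_const_mul, hcg.integral_exp i j 1 1, hkk, hkk, mul_assoc, ← Real.exp_add]
    congr 2
    ring

theorem third {μ : Measure (ι → ℝ)} {K : ι → ι → ℝ} (h : CG μ K)
    {q : ι → ℝ} (hq0 : ∀ i, 0 ≤ q i) (hq1 : ∑ i, q i = 1) {k s : ℝ} (hk : 0 ≤ k) (hs0 : 0 ≤ s) (hs1 : s ≤ 1) :
    Integrable (fun x => |U q k s x - 1| ^ 3) (sc s μ) ∧
    Integrable (fun x => |U q k s x - 1| ^ 3 / (3 * U q k s x)) (sc s μ) ∧
    ∫ x, |U q k s x - 1| ^ 3 ∂(sc s μ) ≤ Real.sqrt s ^ 3 * DD μ k ∧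
    ∫ x, |U q k s x - 1| ^ 3 / (3 * U q k s x) ∂(sc s μ) ≤ Real.sqrt s ^ 3 * DD μ k / 3 := by
  have hG := isGaussian_sc s h.gauss
  have hr0 : 0 ≤ Real.sqrt s := Real.sqrt_nonneg s
  have hmU := measurable_U q k s
  have hm3 : Measurable (fun x => |U q k s x - 1| ^ 3) := by fun_prop
  have hm4 : Measurable (fun x => |U q k s x - 1| ^ 3 / (3 * U q k s x)) := hm3.div (hmU.const_mul 3)
  have hb : ∀ x : ι → ℝ, |U q k s x - 1| ≤ Real.exp ‖x‖ * 1 := by
    intro x
    have h1 := U_pos hq0 hq1 (k := k) (s := s) x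
    have h2 := U_le hq0 hq1 hk hs0 x
    have h3 := Real.one_le_exp (norm_nonneg x)
    rw [abs_le]
    constructor <;> linarith
  have hI3 : Integrable (fun x => |U q k s x - 1| ^ 3) (sc s μ) := by
    apply intg hG hm3 1 3
    intro x
    rw [abs_of_nonneg (by positivity), one_mul]
    calc |U q k s x - 1| ^ 3 ≤ (Real.exp ‖x‖ * 1) ^ 3 := by gcongr; exact hb x
      _ = Real.exp (3 * ‖x‖) := by rw [mul_one, ← Real.exp_nat_mul]; norm_cast
  have hI4 : Integrable (fun x => |U q k s x - 1| ^ 3 / (3 * U q k s x)) (sc s μ) := by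
    apply intg hG hm4 (Real.exp (s * k / 2)) 4
    intro x
    have h1 := U_pos hq0 hq1 (k := k) (s := s) x
    rw [abs_of_nonneg (by positivity), div_le_iff₀ (by positivity)]
    have h2 := U_ge hq0 hq1 (k := k) (s := s) x
    calc |U q k s x - 1| ^ 3 ≤ (Real.exp ‖x‖ * 1) ^ 3 := by gcongr; exact hb x
      _ = Real.exp (s * k / 2) * Real.exp (4 * ‖x‖) * Real.exp (-(‖x‖ + s * k / 2)) := by
          rw [mul_one, ← Real.exp_nat_mul, ← Real.exp_add, ← Real.exp_add]
          congr 1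
          push_cast
          ring
      _ ≤ Real.exp (s * k / 2) * Real.exp (4 * ‖x‖) * (3 * U q k s x) := by
          gcongr
          linarith
  refine ⟨hI3, hI4, ?_, ?_⟩
  · rw [integral_sc hm3]
    unfold DD
    rw [← integral_const_mul]
    apply integral_mono_of_nonneg (ae_of_all _ fun y => by positivity)
      ((integrable_DD h.gauss hk).const_mul _) (ae_of_all _ fun y => ?_)
    obtain ⟨h1, h2⟩ := U_bd hq0 hq1 hk hs0 hs1 y
    have hR0 : 0 ≤ ‖y‖ + k / 2 := by positivity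
    have h3 := Real.one_le_exp hR0
    simp only
    calc |U q k s (Real.sqrt s • y) - 1| ^ 3
        ≤ (Real.sqrt s * ((‖y‖ + k / 2) * Real.exp (‖y‖ + k / 2))) ^ 3 := by gcongr
      _ = Real.sqrt s ^ 3 * (((‖y‖ + k / 2) * Real.exp (‖y‖ + k / 2)) ^ 3 * 1) := by ring
      _ ≤ _ := by gcongr
  · rw [integral_sc hm4]
    unfold DD
    rw [← integral_const_mul, ← integral_div]
    apply integral_mono_of_nonneg (ae_of_all _ fun y => by
        have := U_pos hq0 hq1 (k := k) (s := s) (Real.sqrt s • y)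
        simp only [Pi.zero_apply]
        positivity)
      (((integrable_DD h.gauss hk).const_mul _).div_const 3) (ae_of_all _ fun y => ?_)
    obtain ⟨h1, h2⟩ := U_bd hq0 hq1 hk hs0 hs1 y
    have hR0 : 0 ≤ ‖y‖ + k / 2 := by positivity
    have hU := U_pos hq0 hq1 (k := k) (s := s) (Real.sqrt s • y)
    simp only
    rw [div_le_iff₀ (by positivity)]
    have h4 : 1 ≤ Real.exp (‖y‖ + k / 2) * U q k s (Real.sqrt s • y) := by
      calc (1 : ℝ) = Real.exp (‖y‖ + k / 2) * Real.exp (-(‖y‖ + k / 2)) := by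
            rw [← Real.exp_add]; simp
        _ ≤ _ := by gcongr
    calc |U q k s (Real.sqrt s • y) - 1| ^ 3
        ≤ (Real.sqrt s * ((‖y‖ + k / 2) * Real.exp (‖y‖ + k / 2))) ^ 3 := by gcongr
      _ = Real.sqrt s ^ 3 * ((‖y‖ + k / 2) * Real.exp (‖y‖ + k / 2)) ^ 3 * 1 := by ring
      _ ≤ Real.sqrt s ^ 3 * ((‖y‖ + k / 2) * Real.exp (‖y‖ + k / 2)) ^ 3
          * (Real.exp (‖y‖ + k / 2) * U q k s (Real.sqrt s • y)) := by gcongr
      _ = _ := by ring

/-- second moment of `U` -/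
noncomputable def SS (q : ι → ℝ) (K : ι → ι → ℝ) (s : ℝ) : ℝ :=
  ∑ i, ∑ j, q i * q j * Real.exp (s * K i j)

theorem sqrt_step {μ : Measure (ι → ℝ)} {K : ι → ι → ℝ} (h : CG μ K) {k : ℝ} (hkk : ∀ i, K i i = k)
    {q : ι → ℝ} (hq0 : ∀ i, 0 ≤ q i) (hq1 : ∑ i, q i = 1) {s : ℝ} (hk : 0 ≤ k) (hs0 : 0 ≤ s) (hs1 : s ≤ 1) :
    |∫ x, Real.sqrt (U q k s x) ∂(sc s μ) - (1 - (SS q K s - 1) / 8)| ≤ 3 / 8 * (Real.sqrt s ^ 3 * DD μ k) := by
  have hG := isGaussian_sc s h.gauss
  obtain ⟨hI1, hI2, hm1, hm2⟩ := moments h hkk hq0 hq1 hk hs0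
  obtain ⟨hI3, -, hm3, -⟩ := third h hq0 hq1 hk hs0 hs1
  have hIs : Integrable (fun x => Real.sqrt (U q k s x)) (sc s μ) := by
    apply intg hG (measurable_U q k s).sqrt 1 1
    intro x
    rw [abs_of_nonneg (Real.sqrt_nonneg _), one_mul, one_mul]
    have h1 := U_le hq0 hq1 hk hs0 x
    have h3 := Real.one_le_exp (norm_nonneg x)
    rw [Real.sqrt_le_iff]
    exact ⟨(Real.exp_pos _).le, by nlinarith⟩
  have hP : Integrable (fun x => 1 + (U q k s x - 1) / 2 - (U q k s x - 1) ^ 2 / 8) (sc s μ) := by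
    have e : (fun x => 1 + (U q k s x - 1) / 2 - (U q k s x - 1) ^ 2 / 8)
        = fun x => (3 / 8 + (3 / 4) * U q k s x) - (1 / 8) * U q k s x ^ 2 := by
      funext x; ring
    rw [e]
    exact ((integrable_const _).add (hI1.const_mul _)).sub (hI2.const_mul _)
  have hPv : ∫ x, (1 + (U q k s x - 1) / 2 - (U q k s x - 1) ^ 2 / 8) ∂(sc s μ) = 1 - (SS q K s - 1) / 8 := by
    have e : (fun x => 1 + (U q k s x - 1) / 2 - (U q k s x - 1) ^ 2 / 8)
        = fun x => (3 / 8 + (3 / 4) * U q k s x) - (1 / 8) * U q k s x ^ 2 := by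
      funext x; ring
    have hA : Integrable (fun x => 3 / 8 + (3 / 4) * U q k s x) (sc s μ) :=
      (integrable_const _).add (hI1.const_mul _)
    rw [e, integral_sub hA (hI2.const_mul _),
      integral_add (integrable_const _) (hI1.const_mul _), integral_const_mul, integral_const_mul, hm1, hm2]
    simp only [integral_const, probReal_univ, one_smul]
    unfold SS
    ring
  rw [← hPv, ← integral_sub hIs hP]
  calc |∫ x, (Real.sqrt (U q k s x) - (1 + (U q k s x - 1) / 2 - (U q k s x - 1) ^ 2 / 8)) ∂(sc s μ)|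
      ≤ ∫ x, |Real.sqrt (U q k s x) - (1 + (U q k s x - 1) / 2 - (U q k s x - 1) ^ 2 / 8)| ∂(sc s μ) :=
        abs_integral_le_integral_abs
    _ ≤ ∫ x, 3 / 8 * |U q k s x - 1| ^ 3 ∂(sc s μ) := by
        apply integral_mono (hIs.sub hP).abs (hI3.const_mul _)
        intro x
        have := sqrt_taylor (U q k s x) (U_pos hq0 hq1 x).le
        simp only
        calc |Real.sqrt (U q k s x) - (1 + (U q k s x - 1) / 2 - (U q k s x - 1) ^ 2 / 8)|
            = |Real.sqrt (U q k s x) - 1 - (U q k s x - 1) / 2 + (U q k s x - 1) ^ 2 / 8| := by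
              congr 1; ring
          _ ≤ _ := this
    _ ≤ _ := by
        rw [integral_const_mul]
        gcongr

theorem log_step {μ : Measure (ι → ℝ)} {K : ι → ι → ℝ} (h : CG μ K) {k : ℝ} (hkk : ∀ i, K i i = k)
    {q : ι → ℝ} (hq0 : ∀ i, 0 ≤ q i) (hq1 : ∑ i, q i = 1) {s : ℝ} (hk : 0 ≤ k) (hs0 : 0 ≤ s) (hs1 : s ≤ 1) :
    Integrable (fun x => Real.log (U q k s x)) (sc s μ) ∧
    -((SS q K s - 1) / 2 + Real.sqrt s ^ 3 * DD μ k / 3) ≤ ∫ x, Real.log (U q k s x) ∂(sc s μ) := by
  have hG := isGaussian_sc s h.gauss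
  obtain ⟨hI1, hI2, hm1, hm2⟩ := moments h hkk hq0 hq1 hk hs0
  obtain ⟨-, hI4, -, hm4⟩ := third h hq0 hq1 hk hs0 hs1
  have hIl : Integrable (fun x => Real.log (U q k s x)) (sc s μ) := by
    apply intg hG (measurable_U q k s).log (Real.exp (s * k / 2)) 1
    intro x
    have h1 := U_le hq0 hq1 hk hs0 x
    have h2 := U_ge hq0 hq1 (k := k) (s := s) x
    have h3 := U_pos hq0 hq1 (k := k) (s := s) x
    have h4 : Real.log (U q k s x) ≤ ‖x‖ := by
      rw [← Real.log_exp ‖x‖]
      exact Real.log_le_log h3 h1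
    have h5 : -(‖x‖ + s * k / 2) ≤ Real.log (U q k s x) := by
      rw [← Real.log_exp (-(‖x‖ + s * k / 2))]
      exact Real.log_le_log (Real.exp_pos _) h2
    have h6 : 0 ≤ s * k / 2 := by positivity
    have h7 : |Real.log (U q k s x)| ≤ ‖x‖ + s * k / 2 := by
      rw [abs_le]
      constructor <;> linarith [norm_nonneg x]
    rw [← Real.exp_add]
    have := Real.add_one_le_exp (s * k / 2 + 1 * ‖x‖)
    linarith
  refine ⟨hIl, ?_⟩
  have hP : Integrable (fun x => (U q k s x - 1) - (U q k s x - 1) ^ 2 / 2) (sc s μ) := by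
    have e : (fun x => (U q k s x - 1) - (U q k s x - 1) ^ 2 / 2)
        = fun x => (-(3 / 2) + 2 * U q k s x) - (1 / 2) * U q k s x ^ 2 := by
      funext x; ring
    rw [e]
    exact ((integrable_const _).add (hI1.const_mul _)).sub (hI2.const_mul _)
  have hPv : ∫ x, ((U q k s x - 1) - (U q k s x - 1) ^ 2 / 2) ∂(sc s μ) = - ((SS q K s - 1) / 2) := by
    have e : (fun x => (U q k s x - 1) - (U q k s x - 1) ^ 2 / 2)
        = fun x => (-(3 / 2) + 2 * U q k s x) - (1 / 2) * U q k s x ^ 2 := by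
      funext x; ring
    have hA : Integrable (fun x => -(3 / 2) + 2 * U q k s x) (sc s μ) :=
      (integrable_const _).add (hI1.const_mul _)
    rw [e, integral_sub hA (hI2.const_mul _),
      integral_add (integrable_const _) (hI1.const_mul _), integral_const_mul, integral_const_mul, hm1, hm2]
    simp only [integral_const, probReal_univ, one_smul]
    unfold SS
    ring
  calc -((SS q K s - 1) / 2 + Real.sqrt s ^ 3 * DD μ k / 3)
      ≤ - ((SS q K s - 1) / 2) - ∫ x, |U q k s x - 1| ^ 3 / (3 * U q k s x) ∂(sc s μ) := by linarith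
    _ = ∫ x, (((U q k s x - 1) - (U q k s x - 1) ^ 2 / 2) - |U q k s x - 1| ^ 3 / (3 * U q k s x)) ∂(sc s μ) := by
        rw [integral_sub hP hI4, hPv]
    _ ≤ _ := by
        apply integral_mono (hP.sub hI4) hIl
        intro x
        exact log_taylor (U q k s x) (U_pos hq0 hq1 x)

/-! ### Kahane's inequality -/

/-- `√(∑ c_i e^{z_i})` -/
noncomputable def FF (c : ι → ℝ) (z : ι → ℝ) : ℝ := Real.sqrt (∑ i, c i * Real.exp (z i))

theorem FF_nonneg (c : ι → ℝ) (z : ι → ℝ) : 0 ≤ FF c z := Real.sqrt_nonneg _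

theorem measurable_FF (c : ι → ℝ) : Measurable (FF c) := by
  unfold FF
  fun_prop

theorem FF_le {c : ι → ℝ} (hc : ∀ i, 0 ≤ c i) (z : ι → ℝ) :
    FF c z ≤ Real.sqrt (∑ i, c i) * Real.exp ‖z‖ := by
  unfold FF
  have h1 : ∑ i, c i * Real.exp (z i) ≤ (∑ i, c i) * Real.exp (‖z‖) ^ 2 := by
    rw [Finset.sum_mul]
    apply Finset.sum_le_sum
    intro i _
    apply mul_le_mul_of_nonneg_left _ (hc i)
    have h2 := (abs_le.mp (abs_coord_le z i)).2
    have h3 := Real.one_le_exp (norm_nonneg z)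
    have h4 := Real.exp_le_exp.mpr h2
    nlinarith
  calc Real.sqrt (∑ i, c i * Real.exp (z i)) ≤ Real.sqrt ((∑ i, c i) * Real.exp (‖z‖) ^ 2) :=
        Real.sqrt_le_sqrt h1
    _ = _ := by rw [Real.sqrt_mul (Finset.sum_nonneg fun i _ => hc i), Real.sqrt_sq (Real.exp_pos _).le]

theorem integrable_FF {μ : Measure (ι → ℝ)} (hμ : IsGaussian μ) {c : ι → ℝ} (hc : ∀ i, 0 ≤ c i)
    (z : ι → ℝ) : Integrable (fun x => FF c (z + x)) μ := by
  apply intg hμ ((measurable_FF c).comp (measurable_const_add z))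
    (Real.sqrt (∑ i, c i) * Real.exp ‖z‖) 1
  intro x
  change |FF c (z + x)| ≤ _
  rw [abs_of_nonneg (FF_nonneg c _), one_mul, mul_assoc, ← Real.exp_add]
  refine (FF_le hc (z + x)).trans ?_
  gcongr
  exact norm_add_le z x

theorem kahane_step {μ ν : Measure (ι → ℝ)} {K K' : ι → ι → ℝ} (h : CG μ K) (h' : CG ν K') {k : ℝ}
    (hkk : ∀ i, K i i = k) (hkk' : ∀ i, K' i i = k) (hle : ∀ i j, K' i j ≤ K i j)
    {c : ι → ℝ} (hc : ∀ i, 0 ≤ c i) {s : ℝ} (hs0 : 0 ≤ s) (hs1 : s ≤ 1) (z : ι → ℝ) :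
    ∫ x, FF c (z + x) ∂(sc s μ) ≤ ∫ x, FF c (z + x) ∂(sc s ν)
      + Real.exp (k / 4) * (3 / 8 * (DD μ k + DD ν k)) * Real.sqrt s ^ 3 * FF c z := by
  have hW0 : 0 ≤ ∑ i, c i * Real.exp (z i) := Finset.sum_nonneg fun i _ => mul_nonneg (hc i) (Real.exp_pos _).le
  rcases hW0.eq_or_lt with hW | hW
  · have hc0 : ∀ i, c i = 0 := by
      intro i
      have := (Finset.sum_eq_zero_iff_of_nonneg (fun i _ => mul_nonneg (hc i) (Real.exp_pos _).le)).mp hW.symm i
        (Finset.mem_univ i)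
      exact (mul_eq_zero.mp this).resolve_right (Real.exp_pos _).ne'
    have hF : ∀ x, FF c x = 0 := fun x => by simp [FF, hc0]
    simp [hF]
  · set W := ∑ i, c i * Real.exp (z i) with hWdef
    set q : ι → ℝ := fun i => c i * Real.exp (z i) / W with hq
    have hq0 : ∀ i, 0 ≤ q i := fun i => div_nonneg (mul_nonneg (hc i) (Real.exp_pos _).le) hW.le
    have hq1 : ∑ i, q i = 1 := by
      simp only [hq]
      rw [← Finset.sum_div]
      exact div_self hW.ne'
    obtain ⟨i0⟩ : Nonempty ι := by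
      by_contra hne
      rw [not_nonempty_iff] at hne
      simp at hq1
    have hk : 0 ≤ k := by
      rw [← hkk i0, ← h.cov i0 i0]
      exact integral_nonneg fun y => mul_self_nonneg _
    have e : ∀ x, FF c (z + x) = Real.sqrt W * Real.exp (s * k / 4) * Real.sqrt (U q k s x) := by
      intro x
      have h1 : ∑ i, c i * Real.exp ((z + x) i) = W * Real.exp (s * k / 4) ^ 2 * U q k s x := by
        unfold U
        rw [Finset.mul_sum]
        apply Finset.sum_congr rfl
        intro i _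
        simp only [hq, Pi.add_apply]
        have h2 : Real.exp (z i + x i) = Real.exp (z i) * Real.exp (s * k / 4) ^ 2 * Real.exp (x i - s * k / 2) := by
          rw [← Real.exp_nat_mul, ← Real.exp_add, ← Real.exp_add]
          congr 1
          push_cast
          ring
        rw [h2]
        field_simp
      unfold FF
      rw [h1, Real.sqrt_mul (by positivity), Real.sqrt_mul hW.le, Real.sqrt_sq (Real.exp_pos _).le]
    simp only [e]
    rw [integral_const_mul, integral_const_mul]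
    have s1 := (abs_le.mp (sqrt_step h hkk hq0 hq1 hk hs0 hs1)).2
    have s2 := (abs_le.mp (sqrt_step h' hkk' hq0 hq1 hk hs0 hs1)).1
    have hSS : SS q K' s ≤ SS q K s := by
      unfold SS
      apply Finset.sum_le_sum
      intro i _
      apply Finset.sum_le_sum
      intro j _
      apply mul_le_mul_of_nonneg_left _ (mul_nonneg (hq0 i) (hq0 j))
      apply Real.exp_le_exp.mpr
      exact mul_le_mul_of_nonneg_left (hle i j) hs0
    have hD : 0 ≤ DD μ k := integral_nonneg fun y => by positivity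
    have hD' : 0 ≤ DD ν k := integral_nonneg fun y => by positivity
    have h3 : ∫ x, Real.sqrt (U q k s x) ∂(sc s μ) ≤ ∫ x, Real.sqrt (U q k s x) ∂(sc s ν)
        + 3 / 8 * (DD μ k + DD ν k) * Real.sqrt s ^ 3 := by linarith
    have hexp : Real.exp (s * k / 4) ≤ Real.exp (k / 4) := by
      apply Real.exp_le_exp.mpr
      nlinarith
    have hFz : FF c z = Real.sqrt W := rfl
    rw [hFz]
    have hr0 : 0 ≤ Real.sqrt s := Real.sqrt_nonneg s
    calc Real.sqrt W * Real.exp (s * k / 4) * ∫ x, Real.sqrt (U q k s x) ∂(sc s μ)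
        ≤ Real.sqrt W * Real.exp (s * k / 4) * (∫ x, Real.sqrt (U q k s x) ∂(sc s ν)
        + 3 / 8 * (DD μ k + DD ν k) * Real.sqrt s ^ 3) := by gcongr
      _ = Real.sqrt W * Real.exp (s * k / 4) * (∫ x, Real.sqrt (U q k s x) ∂(sc s ν))
          + Real.exp (s * k / 4) * (3 / 8 * (DD μ k + DD ν k)) * Real.sqrt s ^ 3 * Real.sqrt W := by ring
      _ ≤ _ := by gcongr

omit [Fintype ι] in
theorem sc_one (μ : Measure (ι → ℝ)) : sc 1 μ = μ := by
  unfold sc
  simp

omit [Fintype ι] in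
theorem sc_zero (μ : Measure (ι → ℝ)) [IsProbabilityMeasure μ] : sc 0 μ = Measure.dirac 0 := by
  unfold sc
  simp [Measure.map_const]

theorem lintegral_exp_norm_sc {s : ℝ} (hs1 : s ≤ 1) (μ : Measure (ι → ℝ)) :
    ∫⁻ x, ENNReal.ofReal (Real.exp ‖x‖) ∂(sc s μ) ≤ ∫⁻ x, ENNReal.ofReal (Real.exp ‖x‖) ∂μ := by
  unfold sc
  rw [lintegral_map (by fun_prop) (by fun_prop)]
  apply lintegral_mono
  intro y
  apply ENNReal.ofReal_le_ofReal
  apply Real.exp_le_exp.mpr
  rw [norm_smul, Real.norm_eq_abs, abs_of_nonneg (Real.sqrt_nonneg s)]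
  have : Real.sqrt s ≤ 1 := Real.sqrt_le_iff.mpr ⟨by norm_num, by simpa using hs1⟩
  nlinarith [norm_nonneg y]

theorem kahane_CG {μ ν : Measure (ι → ℝ)} {K K' : ι → ι → ℝ} (h : CG μ K) (h' : CG ν K') {k : ℝ}
    (hkk : ∀ i, K i i = k) (hkk' : ∀ i, K' i i = k) (hle : ∀ i j, K' i j ≤ K i j)
    {c : ι → ℝ} (hc : ∀ i, 0 ≤ c i) :
    ∫ x, FF c x ∂μ ≤ ∫ x, FF c x ∂ν := by
  have hgμ := h.gauss
  have hgν := h'.gauss
  set C := Real.exp (k / 4) * (3 / 8 * (DD μ k + DD ν k)) with hC
  have hC0 : 0 ≤ C ∨ ¬ Nonempty ι := by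
    by_cases hι : Nonempty ι
    · obtain ⟨i0⟩ := hι
      have hk : 0 ≤ k := by
        rw [← hkk i0, ← h.cov i0 i0]
        exact integral_nonneg fun y => mul_self_nonneg _
      have hD : 0 ≤ DD μ k := integral_nonneg fun y => by positivity
      have hD' : 0 ≤ DD ν k := integral_nonneg fun y => by positivity
      left
      positivity
    · exact Or.inr hι
  rcases hC0 with hC0 | hne
  swap
  · rw [not_nonempty_iff] at hne
    simp [FF]
  -- the ENNReal version of the step
  have step : ∀ (s : ℝ), 0 ≤ s → s ≤ 1 → ∀ z : ι → ℝ,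
      ∫⁻ x, ENNReal.ofReal (FF c (z + x)) ∂(sc s μ) ≤ ∫⁻ x, ENNReal.ofReal (FF c (z + x)) ∂(sc s ν)
        + ENNReal.ofReal (C * Real.sqrt s ^ 3) * ENNReal.ofReal (FF c z) := by
    intro s hs0 hs1 z
    have h1 := kahane_step h h' hkk hkk' hle hc hs0 hs1 z
    have hg1 := isGaussian_sc s hgμ
    have hg2 := isGaussian_sc s hgν
    rw [← ofReal_integral_eq_lintegral_ofReal (integrable_FF hg1 hc z) (ae_of_all _ fun x => FF_nonneg c _),
      ← ofReal_integral_eq_lintegral_ofReal (integrable_FF hg2 hc z) (ae_of_all _ fun x => FF_nonneg c _),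
      ← ENNReal.ofReal_mul (by positivity), ← ENNReal.ofReal_add (integral_nonneg fun x => FF_nonneg c _)
        (mul_nonneg (by positivity) (FF_nonneg c _))]
    exact ENNReal.ofReal_le_ofReal h1
  set Eμ := ∫⁻ x, ENNReal.ofReal (Real.exp ‖x‖) ∂μ with hEμ
  set Eν := ∫⁻ x, ENNReal.ofReal (Real.exp ‖x‖) ∂ν with hEν
  have hfin : ∀ {ρ : Measure (ι → ℝ)}, IsGaussian ρ → ∫⁻ x, ENNReal.ofReal (Real.exp ‖x‖) ∂ρ ≠ ⊤ := by
    intro ρ hρ
    have := (integrable_exp_norm hρ 1)
    simp only [one_mul] at this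
    rw [← ofReal_integral_eq_lintegral_ofReal this (ae_of_all _ fun x => (Real.exp_pos _).le)]
    exact ENNReal.ofReal_ne_top
  set B := ENNReal.ofReal (Real.sqrt (∑ i, c i)) * (Eμ * Eν) with hB
  have hBfin : B ≠ ⊤ := ENNReal.mul_ne_top ENNReal.ofReal_ne_top (ENNReal.mul_ne_top (hfin hgμ) (hfin hgν))
  have hmF : Measurable fun x => ENNReal.ofReal (FF c x) := (measurable_FF c).ennreal_ofReal
  have hbound : ∀ a b : ℝ, 0 ≤ a → a ≤ 1 → 0 ≤ b → b ≤ 1 →
      ∫⁻ x, ENNReal.ofReal (FF c x) ∂((sc a μ).conv (sc b ν)) ≤ B := by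
    intro a b ha0 ha1 hb0 hb1
    have hg1 := isGaussian_sc a hgμ
    have hg2 := isGaussian_sc b hgν
    rw [Measure.lintegral_conv hmF]
    calc ∫⁻ x, ∫⁻ y, ENNReal.ofReal (FF c (x + y)) ∂(sc b ν) ∂(sc a μ)
        ≤ ∫⁻ x, ∫⁻ y, ENNReal.ofReal (Real.sqrt (∑ i, c i)) *
            (ENNReal.ofReal (Real.exp ‖x‖) * ENNReal.ofReal (Real.exp ‖y‖)) ∂(sc b ν) ∂(sc a μ) := by
          apply lintegral_mono
          intro x
          apply lintegral_mono
          intro y
          simp only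
          rw [← ENNReal.ofReal_mul (Real.exp_pos _).le, ← Real.exp_add,
            ← ENNReal.ofReal_mul (Real.sqrt_nonneg _)]
          apply ENNReal.ofReal_le_ofReal
          refine (FF_le hc (x + y)).trans ?_
          gcongr
          exact norm_add_le x y
      _ = ENNReal.ofReal (Real.sqrt (∑ i, c i)) *
            ((∫⁻ x, ENNReal.ofReal (Real.exp ‖x‖) ∂(sc a μ)) * ∫⁻ y, ENNReal.ofReal (Real.exp ‖y‖) ∂(sc b ν)) := by
          have hm : Measurable fun y : ι → ℝ => ENNReal.ofReal (Real.exp ‖y‖) := by fun_prop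
          have e1 : ∀ x : ι → ℝ, ∫⁻ y, ENNReal.ofReal (Real.sqrt (∑ i, c i)) *
              (ENNReal.ofReal (Real.exp ‖x‖) * ENNReal.ofReal (Real.exp ‖y‖)) ∂(sc b ν)
              = ENNReal.ofReal (Real.sqrt (∑ i, c i)) * (ENNReal.ofReal (Real.exp ‖x‖) *
                ∫⁻ y, ENNReal.ofReal (Real.exp ‖y‖) ∂(sc b ν)) := by
            intro x
            rw [lintegral_const_mul _ (hm.const_mul _), lintegral_const_mul _ hm]
          simp only [e1]
          rw [lintegral_const_mul _ (hm.mul_const _), lintegral_mul_const _ hm]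
      _ ≤ B := by
          rw [hB]
          gcongr
          · exact lintegral_exp_norm_sc ha1 μ
          · exact lintegral_exp_norm_sc hb1 ν
  -- the chain
  have key : ∀ n : ℕ, 0 < n → ∫⁻ x, ENNReal.ofReal (FF c x) ∂μ ≤ ∫⁻ x, ENNReal.ofReal (FF c x) ∂ν
      + n * (ENNReal.ofReal (C * Real.sqrt (1 / n) ^ 3) * B) := by
    intro n hn
    have hnR : (0 : ℝ) < n := by exact_mod_cast hn
    have hs0 : (0 : ℝ) ≤ 1 / n := by positivity
    have hs1 : (1 : ℝ) / n ≤ 1 := by
      rw [div_le_one hnR]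
      exact_mod_cast hn
    have hA : ∀ j : ℕ, j ≤ n →
        ∫⁻ x, ENNReal.ofReal (FF c x) ∂((sc ((j : ℝ) / n) μ).conv (sc (((n : ℝ) - j) / n) ν))
          ≤ ∫⁻ x, ENNReal.ofReal (FF c x) ∂ν + j * (ENNReal.ofReal (C * Real.sqrt (1 / n) ^ 3) * B) := by
      intro j
      induction j with
      | zero =>
        intro _
        have e1 : ((n : ℝ) - ((0 : ℕ) : ℝ)) / n = 1 := by
          simp [hnR.ne']
        have e0 : (((0 : ℕ) : ℝ)) / n = 0 := by simp
        rw [e0, e1, sc_zero, sc_one, Measure.dirac_zero_conv]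
        simp
      | succ j ih =>
        intro hj
        have hjn : (j : ℝ) + 1 ≤ n := by exact_mod_cast hj
        have hj0 : (0 : ℝ) ≤ j := Nat.cast_nonneg j
        have ihj := ih (by omega)
        have ha0 : (0 : ℝ) ≤ (j : ℝ) / n := by positivity
        have ha1 : (j : ℝ) / n ≤ 1 := by rw [div_le_one hnR]; linarith
        have hb0 : (0 : ℝ) ≤ ((n : ℝ) - (j + 1)) / n := div_nonneg (by linarith) hnR.le
        have hb1 : ((n : ℝ) - (j + 1)) / n ≤ 1 := by rw [div_le_one hnR]; linarith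
        have g1 := isGaussian_sc ((j : ℝ) / n) hgμ
        have g2 := isGaussian_sc (1 / (n : ℝ)) hgμ
        have g3 := isGaussian_sc (((n : ℝ) - (j + 1)) / n) hgν
        have g4 := isGaussian_sc (1 / (n : ℝ)) hgν
        have e1 : ((((j + 1 : ℕ) : ℝ)) / n) = (j : ℝ) / n + 1 / n := by push_cast; ring
        have e2 : ((n : ℝ) - ((j + 1 : ℕ) : ℝ)) / n = ((n : ℝ) - (j + 1)) / n := by push_cast; ring
        have e3 : ((n : ℝ) - (j : ℝ)) / n = ((n : ℝ) - (j + 1)) / n + 1 / n := by ring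
        rw [e1, e2, sc_add ha0 hs0 h]
        rw [e3, sc_add hb0 hs0 h'] at ihj
        have m1 : ((sc ((j : ℝ) / n) μ).conv (sc (1 / (n : ℝ)) μ)).conv (sc (((n : ℝ) - (j + 1)) / n) ν)
            = ((sc ((j : ℝ) / n) μ).conv (sc (((n : ℝ) - (j + 1)) / n) ν)).conv (sc (1 / (n : ℝ)) μ) := by
          rw [Measure.conv_assoc, Measure.conv_comm (sc (1 / (n : ℝ)) μ), ← Measure.conv_assoc]
        rw [m1, Measure.lintegral_conv hmF]
        rw [← Measure.conv_assoc, Measure.lintegral_conv hmF] at ihj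
        calc ∫⁻ z, ∫⁻ x, ENNReal.ofReal (FF c (z + x)) ∂(sc (1 / (n : ℝ)) μ)
              ∂((sc ((j : ℝ) / n) μ).conv (sc (((n : ℝ) - (j + 1)) / n) ν))
            ≤ ∫⁻ z, (∫⁻ x, ENNReal.ofReal (FF c (z + x)) ∂(sc (1 / (n : ℝ)) ν)
              + ENNReal.ofReal (C * Real.sqrt (1 / n) ^ 3) * ENNReal.ofReal (FF c z))
              ∂((sc ((j : ℝ) / n) μ).conv (sc (((n : ℝ) - (j + 1)) / n) ν)) := by
              apply lintegral_mono
              intro z
              exact step (1 / n) hs0 hs1 z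
          _ = (∫⁻ z, ∫⁻ x, ENNReal.ofReal (FF c (z + x)) ∂(sc (1 / (n : ℝ)) ν)
                ∂((sc ((j : ℝ) / n) μ).conv (sc (((n : ℝ) - (j + 1)) / n) ν)))
              + ENNReal.ofReal (C * Real.sqrt (1 / n) ^ 3) * ∫⁻ z, ENNReal.ofReal (FF c z)
                ∂((sc ((j : ℝ) / n) μ).conv (sc (((n : ℝ) - (j + 1)) / n) ν)) := by
              rw [lintegral_add_right _ (hmF.const_mul _), lintegral_const_mul _ hmF]
          _ ≤ (∫⁻ x, ENNReal.ofReal (FF c x) ∂ν + j * (ENNReal.ofReal (C * Real.sqrt (1 / n) ^ 3) * B))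
              + ENNReal.ofReal (C * Real.sqrt (1 / n) ^ 3) * B := by
              gcongr
              exact hbound _ _ ha0 ha1 hb0 hb1
          _ = _ := by
              push_cast
              ring
    have := hA n le_rfl
    have e1 : ((n : ℝ) - (n : ℝ)) / n = 0 := by simp
    have e0 : ((n : ℝ)) / n = 1 := div_self hnR.ne'
    rw [e0, e1, sc_zero, sc_one, Measure.conv_dirac_zero] at this
    exact this
  have hlim : Filter.Tendsto (fun n : ℕ => ∫⁻ x, ENNReal.ofReal (FF c x) ∂ν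
      + ENNReal.ofReal (C * Real.sqrt (1 / n)) * B) Filter.atTop
      (nhds (∫⁻ x, ENNReal.ofReal (FF c x) ∂ν + 0)) := by
    apply Filter.Tendsto.add tendsto_const_nhds
    have h1 : Filter.Tendsto (fun n : ℕ => C * Real.sqrt (1 / n)) Filter.atTop (nhds 0) := by
      have h2 : Filter.Tendsto (fun n : ℕ => Real.sqrt (1 / (n : ℝ))) Filter.atTop (nhds (Real.sqrt 0)) :=
        (Real.continuous_sqrt.tendsto 0).comp tendsto_one_div_atTop_nhds_zero_nat
      rw [Real.sqrt_zero] at h2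
      simpa using h2.const_mul C
    have h3 : Filter.Tendsto (fun n : ℕ => ENNReal.ofReal (C * Real.sqrt (1 / n))) Filter.atTop (nhds 0) := by
      have := ENNReal.tendsto_ofReal h1
      simpa using this
    have h4 := ENNReal.Tendsto.mul_const (b := B) h3 (Or.inr hBfin)
    simpa using h4
  rw [add_zero] at hlim
  have hfinal : ∫⁻ x, ENNReal.ofReal (FF c x) ∂μ ≤ ∫⁻ x, ENNReal.ofReal (FF c x) ∂ν := by
    apply ge_of_tendsto hlim
    filter_upwards [Filter.eventually_gt_atTop 0] with n hn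
    refine (key n hn).trans (le_of_eq ?_)
    have hnR : (0 : ℝ) < n := by exact_mod_cast hn
    congr 1
    rw [← mul_assoc, ← ENNReal.ofReal_natCast, ← ENNReal.ofReal_mul hnR.le]
    congr 2
    have : Real.sqrt (1 / n) ^ 2 = 1 / n := Real.sq_sqrt (by positivity)
    calc (n : ℝ) * (C * Real.sqrt (1 / n) ^ 3) = C * Real.sqrt (1 / n) * (n * Real.sqrt (1 / n) ^ 2) := by ring
      _ = C * Real.sqrt (1 / n) := by rw [this]; field_simp
  have hi1 : Integrable (FF c) μ := by simpa using integrable_FF hgμ hc 0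
  have hi2 : Integrable (FF c) ν := by simpa using integrable_FF hgν hc 0
  rw [← ofReal_integral_eq_lintegral_ofReal hi1 (ae_of_all _ fun x => FF_nonneg c _),
    ← ofReal_integral_eq_lintegral_ofReal hi2 (ae_of_all _ fun x => FF_nonneg c _)] at hfinal
  exact (ENNReal.ofReal_le_ofReal_iff (integral_nonneg fun x => FF_nonneg c _)).mp hfinal

/-! ### the replica bound -/

theorem integrable_logU {ρ : Measure (ι → ℝ)} (hρ : IsGaussian ρ) {q : ι → ℝ} (hq0 : ∀ i, 0 ≤ q i)
    (hq1 : ∑ i, q i = 1) {k s : ℝ} (hk : 0 ≤ k) (hs0 : 0 ≤ s) :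
    Integrable (fun x => Real.log (U q k s x)) ρ := by
  apply intg hρ (measurable_U q k s).log (Real.exp (s * k / 2)) 1
  intro x
  have h1 := U_le hq0 hq1 hk hs0 x
  have h2 := U_ge hq0 hq1 (k := k) (s := s) x
  have h3 := U_pos hq0 hq1 (k := k) (s := s) x
  have h4 : Real.log (U q k s x) ≤ ‖x‖ := by
    rw [← Real.log_exp ‖x‖]
    exact Real.log_le_log h3 h1
  have h5 : -(‖x‖ + s * k / 2) ≤ Real.log (U q k s x) := by
    rw [← Real.log_exp (-(‖x‖ + s * k / 2))]
    exact Real.log_le_log (Real.exp_pos _) h2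
  have h6 : 0 ≤ s * k / 2 := by positivity
  have h7 : |Real.log (U q k s x)| ≤ ‖x‖ + s * k / 2 := by
    rw [abs_le]
    constructor <;> linarith [norm_nonneg x]
  rw [← Real.exp_add]
  have := Real.add_one_le_exp (s * k / 2 + 1 * ‖x‖)
  linarith

/-- Gibbs weights -/
noncomputable def qq (c : ι → ℝ) (z : ι → ℝ) (i : ι) : ℝ :=
  c i * Real.exp (z i) / ∑ j, c j * Real.exp (z j)

/-- overlap -/
noncomputable def KK (c : ι → ℝ) (K : ι → ι → ℝ) (z : ι → ℝ) : ℝ :=
  ∑ i, ∑ j, qq c z i * qq c z j * K i j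

theorem sum_exp_pos {c : ι → ℝ} (hc : ∀ i, 0 ≤ c i) (hc1 : ∑ i, c i = 1) (z : ι → ℝ) :
    0 < ∑ i, c i * Real.exp (z i) := by
  have := U_pos hc hc1 (k := 0) (s := 0) z
  unfold U at this
  simpa using this

theorem qq_nonneg {c : ι → ℝ} (hc : ∀ i, 0 ≤ c i) (hc1 : ∑ i, c i = 1) (z : ι → ℝ) (i : ι) :
    0 ≤ qq c z i := by
  have h1 := sum_exp_pos hc hc1 z
  exact div_nonneg (mul_nonneg (hc i) (Real.exp_pos _).le) h1.le

theorem qq_sum {c : ι → ℝ} (hc : ∀ i, 0 ≤ c i) (hc1 : ∑ i, c i = 1) (z : ι → ℝ) :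
    ∑ i, qq c z i = 1 := by
  unfold qq
  rw [← Finset.sum_div]
  exact div_self (sum_exp_pos hc hc1 z).ne'

theorem qq_le_one {c : ι → ℝ} (hc : ∀ i, 0 ≤ c i) (hc1 : ∑ i, c i = 1) (z : ι → ℝ) (i : ι) :
    qq c z i ≤ 1 := by
  rw [← qq_sum hc hc1 z]
  exact Finset.single_le_sum (f := fun i => qq c z i) (fun j _ => qq_nonneg hc hc1 z j) (Finset.mem_univ i)

theorem measurable_KK (c : ι → ℝ) (K : ι → ι → ℝ) : Measurable (KK c K) := by
  unfold KK qq
  fun_prop

theorem KK_bd {c : ι → ℝ} (hc : ∀ i, 0 ≤ c i) (hc1 : ∑ i, c i = 1) {K : ι → ι → ℝ} (hK : ∀ i j, 0 ≤ K i j)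
    (z : ι → ℝ) : 0 ≤ KK c K z ∧ KK c K z ≤ ∑ i, ∑ j, K i j := by
  unfold KK
  constructor
  · exact Finset.sum_nonneg fun i _ => Finset.sum_nonneg fun j _ =>
      mul_nonneg (mul_nonneg (qq_nonneg hc hc1 z i) (qq_nonneg hc hc1 z j)) (hK i j)
  · apply Finset.sum_le_sum
    intro i _
    apply Finset.sum_le_sum
    intro j _
    have h1 := qq_le_one hc hc1 z i
    have h2 := qq_le_one hc hc1 z j
    have h3 := qq_nonneg hc hc1 z i
    have h4 := qq_nonneg hc hc1 z j
    have h5 : qq c z i * qq c z j ≤ 1 := by nlinarith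
    nlinarith [hK i j]

theorem U_mul {c : ι → ℝ} (hc : ∀ i, 0 ≤ c i) (hc1 : ∑ i, c i = 1) (k t s : ℝ) (z x : ι → ℝ) :
    U c k (t + s) (z + x) = U c k t z * U (qq c z) k s x := by
  have hS := sum_exp_pos hc hc1 z
  have h1 : U c k t z = (∑ i, c i * Real.exp (z i)) * Real.exp (-(t * k / 2)) := by
    unfold U
    rw [Finset.sum_mul]
    apply Finset.sum_congr rfl
    intro i _
    rw [mul_assoc, ← Real.exp_add]
    congr 2
  rw [h1]
  unfold U
  rw [Finset.mul_sum]
  apply Finset.sum_congr rfl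
  intro i _
  unfold qq
  have h2 : Real.exp ((z + x) i - (t + s) * k / 2)
      = Real.exp (z i) * Real.exp (-(t * k / 2)) * Real.exp (x i - s * k / 2) := by
    rw [← Real.exp_add, ← Real.exp_add]
    congr 1
    simp only [Pi.add_apply]
    ring
  rw [h2]
  field_simp

theorem exp_taylor {K s : ℝ} (hK : 0 ≤ K) (hs0 : 0 ≤ s) (hs1 : s ≤ 1) :
    Real.exp (s * K) ≤ 1 + s * K + s ^ 2 * (K ^ 2 * Real.exp K) := by
  have hu : 0 ≤ s * K := mul_nonneg hs0 hK
  have h1 := abs_exp_sub_one_le' (s * K)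
  rw [abs_of_nonneg hu] at h1
  have h2 := (le_abs_self _).trans h1
  have h3 : Real.exp (s * K) ≤ Real.exp K := Real.exp_le_exp.mpr (by nlinarith)
  have h4 : (s * K) * (Real.exp (s * K) - 1) ≤ (s * K) * ((s * K) * Real.exp (s * K)) :=
    mul_le_mul_of_nonneg_left h2 hu
  have h5 : (s * K) * ((s * K) * Real.exp (s * K)) ≤ (s * K) * ((s * K) * Real.exp K) := by gcongr
  nlinarith

/-- `-E log` of the partition function at time `t` -/
noncomputable def Ph (μ : Measure (ι → ℝ)) (c : ι → ℝ) (k t : ℝ) : ℝ :=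
  -∫ z, Real.log (U c k t z) ∂(sc t μ)

/-- second order constant -/
noncomputable def MM (K : ι → ι → ℝ) : ℝ := ∑ i, ∑ j, K i j ^ 2 * Real.exp (K i j)

theorem SS_le {c : ι → ℝ} (hc : ∀ i, 0 ≤ c i) (hc1 : ∑ i, c i = 1) {K : ι → ι → ℝ} (hK : ∀ i j, 0 ≤ K i j)
    {s : ℝ} (hs0 : 0 ≤ s) (hs1 : s ≤ 1) (z : ι → ℝ) :
    SS (qq c z) K s - 1 ≤ s * KK c K z + s ^ 2 * MM K := by
  have h1 : (1 : ℝ) = ∑ i, ∑ j, qq c z i * qq c z j := by
    rw [← Finset.sum_mul_sum, qq_sum hc hc1 z, mul_one]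
  have h2 : SS (qq c z) K s ≤ ∑ i, ∑ j, (qq c z i * qq c z j + s * (qq c z i * qq c z j * K i j)
      + s ^ 2 * (K i j ^ 2 * Real.exp (K i j))) := by
    unfold SS
    apply Finset.sum_le_sum
    intro i _
    apply Finset.sum_le_sum
    intro j _
    have g1 := qq_le_one hc hc1 z i
    have g2 := qq_le_one hc hc1 z j
    have g3 := qq_nonneg hc hc1 z i
    have g4 := qq_nonneg hc hc1 z j
    have g5 : qq c z i * qq c z j ≤ 1 := by nlinarith
    have g6 : 0 ≤ qq c z i * qq c z j := mul_nonneg g3 g4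
    have g7 := exp_taylor (hK i j) hs0 hs1
    have g8 : 0 ≤ s ^ 2 * (K i j ^ 2 * Real.exp (K i j)) := by positivity
    calc qq c z i * qq c z j * Real.exp (s * K i j)
        ≤ qq c z i * qq c z j * (1 + s * K i j + s ^ 2 * (K i j ^ 2 * Real.exp (K i j))) := by gcongr
      _ ≤ _ := by nlinarith
  have h3 : ∑ i, ∑ j, (qq c z i * qq c z j + s * (qq c z i * qq c z j * K i j)
      + s ^ 2 * (K i j ^ 2 * Real.exp (K i j))) = 1 + s * KK c K z + s ^ 2 * MM K := by
    simp only [Finset.sum_add_distrib, ← Finset.mul_sum]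
    rw [← Finset.sum_mul, qq_sum hc hc1 z]
    unfold KK MM
    ring
  linarith

theorem Ph_step {μ : Measure (ι → ℝ)} {K : ι → ι → ℝ} (h : CG μ K) {k : ℝ} (hkk : ∀ i, K i i = k)
    (hK : ∀ i j, 0 ≤ K i j) {c : ι → ℝ} (hc : ∀ i, 0 ≤ c i) (hc1 : ∑ i, c i = 1) (hk : 0 ≤ k)
    {s t : ℝ} (ht0 : 0 ≤ t) (hs0 : 0 ≤ s) (hs1 : s ≤ 1) :
    Ph μ c k (t + s) ≤ Ph μ c k t + s / 2 * (∫ z, KK c K z ∂(sc t μ))
      + (MM K / 2 + DD μ k / 3) * Real.sqrt s ^ 3 := by
  have hg := h.gauss
  have g1 := isGaussian_sc t hg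
  have g2 := isGaussian_sc s hg
  have g3 := isGaussian_sc (t + s) hg
  have hI := integrable_logU g3 hc hc1 hk (add_nonneg ht0 hs0)
  rw [sc_add ht0 hs0 h] at hI
  have hlhs : Ph μ c k (t + s) = -∫ z, ∫ x, Real.log (U c k (t + s) (z + x)) ∂(sc s μ) ∂(sc t μ) := by
    unfold Ph
    rw [sc_add ht0 hs0 h, integral_conv hI]
  have hprod : Integrable (fun p : (ι → ℝ) × (ι → ℝ) => Real.log (U c k (t + s) (p.1 + p.2)))
      ((sc t μ).prod (sc s μ)) := by
    unfold Measure.conv at hI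
    exact (integrable_map_measure hI.1 (by fun_prop)).mp hI
  have hG : Integrable (fun z => ∫ x, Real.log (U c k (t + s) (z + x)) ∂(sc s μ)) (sc t μ) :=
    hprod.integral_prod_left
  have hKKi : Integrable (KK c K) (sc t μ) := by
    apply intg g1 (measurable_KK c K) (∑ i, ∑ j, K i j) 1
    intro x
    have := KK_bd hc hc1 hK x
    rw [abs_of_nonneg this.1]
    have h1 := Real.one_le_exp (show (0 : ℝ) ≤ 1 * ‖x‖ by positivity)
    nlinarith
  have hLi := integrable_logU g1 hc hc1 hk ht0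
  set R := (MM K / 2 + DD μ k / 3) * Real.sqrt s ^ 3 with hR
  have hpt : ∀ z, Real.log (U c k t z) - s / 2 * KK c K z - R
      ≤ ∫ x, Real.log (U c k (t + s) (z + x)) ∂(sc s μ) := by
    intro z
    have hq0 := qq_nonneg hc hc1 z
    have hq1 := qq_sum hc hc1 z
    have e : ∀ x, Real.log (U c k (t + s) (z + x)) = Real.log (U c k t z) + Real.log (U (qq c z) k s x) := by
      intro x
      rw [U_mul hc hc1, Real.log_mul (U_pos hc hc1 z).ne' (U_pos hq0 hq1 x).ne']
    simp only [e]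
    obtain ⟨hi, hl⟩ := log_step h hkk hq0 hq1 hk hs0 hs1
    rw [integral_add (integrable_const _) hi]
    simp only [integral_const, probReal_univ, one_smul]
    have h1 := SS_le hc hc1 hK hs0 hs1 z
    have hM : 0 ≤ MM K := by
      unfold MM
      positivity
    have h2 : s ^ 2 * MM K ≤ Real.sqrt s ^ 3 * MM K := by
      have hr0 : 0 ≤ Real.sqrt s := Real.sqrt_nonneg s
      have hr1 : Real.sqrt s ≤ 1 := Real.sqrt_le_iff.mpr ⟨by norm_num, by simpa using hs1⟩
      have : s ^ 2 = Real.sqrt s ^ 4 := by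
        have := Real.sq_sqrt hs0
        calc s ^ 2 = (Real.sqrt s ^ 2) ^ 2 := by rw [this]
          _ = _ := by ring
      rw [this]
      gcongr ?_ * _
      exact pow_le_pow_of_le_one hr0 hr1 (by norm_num)
    rw [hR]
    linarith
  have i1 : Integrable (fun z => s / 2 * KK c K z) (sc t μ) := hKKi.const_mul (s / 2)
  have i2 : Integrable (fun z => Real.log (U c k t z) - s / 2 * KK c K z) (sc t μ) := hLi.sub i1
  have i3 : Integrable (fun z => Real.log (U c k t z) - s / 2 * KK c K z - R) (sc t μ) :=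
    i2.sub (integrable_const R)
  have hint := integral_mono i3 hG hpt
  rw [integral_sub i2 (integrable_const R), integral_sub hLi i1, integral_const_mul] at hint
  simp only [integral_const, probReal_univ, one_smul] at hint
  rw [hlhs]
  unfold Ph
  linarith

theorem KK_bound {μ : Measure (ι → ℝ)} {K : ι → ι → ℝ} (h : CG μ K) {k : ℝ} (hkk : ∀ i, K i i = k)
    (hK : ∀ i j, 0 ≤ K i j) {c : ι → ℝ} (hc : ∀ i, 0 ≤ c i) (hc1 : ∑ i, c i = 1) (hk : 0 ≤ k)
    {t b : ℝ} (ht0 : 0 ≤ t) (htb : t < b) :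
    (b - t) * (∫ z, KK c K z ∂(sc t μ)) ≤ Real.log (SS c K b) + 2 * Ph μ c k t := by
  have hg := h.gauss
  have g1 := isGaussian_sc t hg
  have hcg := h.sc ht0
  have hKKi : Integrable (KK c K) (sc t μ) := by
    apply intg g1 (measurable_KK c K) (∑ i, ∑ j, K i j) 1
    intro x
    have := KK_bd hc hc1 hK x
    rw [abs_of_nonneg this.1]
    have h1 := Real.one_le_exp (show (0 : ℝ) ≤ 1 * ‖x‖ by positivity)
    nlinarith
  have hLi := integrable_logU g1 hc hc1 hk ht0
  -- the function `Z`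
  set Z : (ι → ℝ) → ℝ := fun z => ∑ i, ∑ j, (c i * c j * Real.exp (-(t * k) + (b - t) * K i j)) *
    Real.exp (1 * z i + 1 * z j) with hZ
  have hint : ∀ (i j : ι), Integrable (fun x : ι → ℝ => Real.exp (1 * x i + 1 * x j)) (sc t μ) := by
    intro i j
    apply intg g1 (by fun_prop) 1 2
    intro x
    rw [abs_of_pos (Real.exp_pos _), one_mul, one_mul, one_mul]
    apply Real.exp_le_exp.mpr
    have h1 := (abs_le.mp (abs_coord_le x i)).2
    have h2 := (abs_le.mp (abs_coord_le x j)).2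
    linarith
  have hZi : Integrable Z (sc t μ) :=
    integrable_finsetSum _ (fun i _ => integrable_finsetSum _ (fun j _ => (hint i j).const_mul _))
  have hZv : ∫ z, Z z ∂(sc t μ) = SS c K b := by
    simp only [hZ]
    rw [integral_finsetSum _ (fun i _ => integrable_finsetSum _ (fun j _ => (hint i j).const_mul _))]
    unfold SS
    apply Finset.sum_congr rfl
    intro i _
    rw [integral_finsetSum _ (fun j _ => (hint i j).const_mul _)]
    apply Finset.sum_congr rfl
    intro j _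
    rw [integral_const_mul, hcg.integral_exp i j 1 1, hkk, hkk, mul_assoc, ← Real.exp_add]
    congr 2
    ring
  have hm : 0 < SS c K b := by
    unfold SS
    have h1 : (1 : ℝ) = ∑ i, ∑ j, c i * c j := by
      rw [← Finset.sum_mul_sum, hc1, mul_one]
    have h2 : ∑ i, ∑ j, c i * c j ≤ ∑ i, ∑ j, c i * c j * Real.exp (b * K i j) := by
      apply Finset.sum_le_sum
      intro i _
      apply Finset.sum_le_sum
      intro j _
      have h3 : 1 ≤ Real.exp (b * K i j) := Real.one_le_exp (mul_nonneg (by linarith) (hK i j))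
      nlinarith [mul_nonneg (hc i) (hc j)]
    linarith
  have hpt : ∀ z, (b - t) * KK c K z
      ≤ Z z / SS c K b - 1 + Real.log (SS c K b) - 2 * Real.log (U c k t z) := by
    intro z
    have hq0 := qq_nonneg hc hc1 z
    have hq1 := qq_sum hc hc1 z
    have hUp := U_pos hc hc1 (k := k) (s := t) z
    -- Jensen
    have hJ : Real.exp ((b - t) * KK c K z) ≤ ∑ i, ∑ j, qq c z i * qq c z j * Real.exp ((b - t) * K i j) := by
      have := convexOn_exp.map_sum_le (t := (Finset.univ : Finset (ι × ι)))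
        (w := fun p => qq c z p.1 * qq c z p.2) (p := fun p => (b - t) * K p.1 p.2)
        (fun p _ => mul_nonneg (hq0 _) (hq0 _))
        (by rw [Fintype.sum_prod_type, ← Finset.sum_mul_sum, hq1, mul_one]) (fun p _ => Set.mem_univ _)
      simp only [smul_eq_mul, Fintype.sum_prod_type] at this
      refine le_trans (le_of_eq ?_) this
      congr 1
      unfold KK
      rw [Finset.mul_sum]
      apply Finset.sum_congr rfl
      intro i _
      rw [Finset.mul_sum]
      apply Finset.sum_congr rfl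
      intro j _
      ring
    have hZU : Z z = U c k t z ^ 2 * ∑ i, ∑ j, qq c z i * qq c z j * Real.exp ((b - t) * K i j) := by
      have hS := sum_exp_pos hc hc1 z
      have h1 : U c k t z = (∑ i, c i * Real.exp (z i)) * Real.exp (-(t * k / 2)) := by
        unfold U
        rw [Finset.sum_mul]
        apply Finset.sum_congr rfl
        intro i _
        rw [mul_assoc, ← Real.exp_add]
        congr 2
      rw [h1, Finset.mul_sum]
      simp only [hZ]
      apply Finset.sum_congr rfl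
      intro i _
      rw [Finset.mul_sum]
      apply Finset.sum_congr rfl
      intro j _
      unfold qq
      have e1 : Real.exp (-(t * k) + (b - t) * K i j) = Real.exp (-(t * k / 2)) ^ 2 * Real.exp ((b - t) * K i j) := by
        rw [← Real.exp_nat_mul, ← Real.exp_add]
        congr 1
        push_cast
        ring
      have e2 : Real.exp (1 * z i + 1 * z j) = Real.exp (z i) * Real.exp (z j) := by
        rw [← Real.exp_add, one_mul, one_mul]
      rw [e1, e2]
      field_simp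
    have hZp : 0 < Z z := by
      rw [hZU]
      exact mul_pos (by positivity) ((Real.exp_pos _).trans_le hJ)
    have h1 : (b - t) * KK c K z + 2 * Real.log (U c k t z) ≤ Real.log (Z z) := by
      rw [Real.le_log_iff_exp_le hZp, Real.exp_add]
      have e3 : Real.exp (2 * Real.log (U c k t z)) = U c k t z ^ 2 := by
        rw [two_mul, Real.exp_add, Real.exp_log hUp]
        ring
      rw [e3, hZU, mul_comm]
      gcongr
    have h2 := Real.log_le_sub_one_of_pos (div_pos hZp hm)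
    rw [Real.log_div hZp.ne' hm.ne'] at h2
    linarith
  have hi2 : Integrable (fun z => Z z / SS c K b - 1 + Real.log (SS c K b) - 2 * Real.log (U c k t z)) (sc t μ) :=
    (((hZi.div_const _).sub (integrable_const _)).add (integrable_const _)).sub (hLi.const_mul 2)
  have hmono := integral_mono (hKKi.const_mul (b - t)) hi2 hpt
  rw [integral_const_mul] at hmono
  have hval : ∫ z, (Z z / SS c K b - 1 + Real.log (SS c K b) - 2 * Real.log (U c k t z)) ∂(sc t μ)
      = Real.log (SS c K b) + 2 * Ph μ c k t := by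
    have i1 : Integrable (fun z => Z z / SS c K b) (sc t μ) := hZi.div_const _
    have i2 : Integrable (fun z => Z z / SS c K b - 1) (sc t μ) := i1.sub (integrable_const _)
    have i3 : Integrable (fun z => Z z / SS c K b - 1 + Real.log (SS c K b)) (sc t μ) :=
      i2.add (integrable_const _)
    rw [integral_sub i3 (hLi.const_mul 2), integral_add i2 (integrable_const _),
      integral_sub i1 (integrable_const _), integral_div, hZv, div_self hm.ne', integral_const_mul]
    simp only [integral_const, probReal_univ, one_smul]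
    unfold Ph
    ring
  rw [hval] at hmono
  exact hmono

theorem replica_CG {μ : Measure (ι → ℝ)} {K : ι → ι → ℝ} (h : CG μ K) {k : ℝ} (hkk : ∀ i, K i i = k)
    (hK : ∀ i j, 0 ≤ K i j) {c : ι → ℝ} (hc : ∀ i, 0 ≤ c i) (hc1 : ∑ i, c i = 1) {b : ℝ} (hb : 1 < b) :
    Ph μ c k 1 ≤ 1 / (2 * (b - 1)) * Real.log (SS c K b) := by
  have hg := h.gauss
  obtain ⟨i0⟩ : Nonempty ι := by
    by_contra hne
    rw [not_nonempty_iff] at hne
    simp at hc1
  have hk : 0 ≤ k := by
    rw [← hkk i0, ← h.cov i0 i0]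
    exact integral_nonneg fun y => mul_self_nonneg _
  set Λ := Real.log (SS c K b) / 2 with hΛ
  set C := MM K / 2 + DD μ k / 3 with hC
  have hM : 0 ≤ MM K := by
    unfold MM
    positivity
  have hD : 0 ≤ DD μ k := integral_nonneg fun y => by positivity
  have hC0 : 0 ≤ C := by positivity
  have hP0 : Ph μ c k 0 = 0 := by
    unfold Ph
    rw [sc_zero]
    have : U c k 0 0 = 1 := by
      unfold U
      simp [hc1]
    simp [integral_dirac, this]
  have key : ∀ n : ℕ, 0 < n → (Ph μ c k 1 + Λ) * (b - 1 + 1 / n) ≤ Λ * (b + 1 / n) + C * b * Real.sqrt (1 / n) := by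
    intro n hn
    have hnR : (0 : ℝ) < n := by exact_mod_cast hn
    have hs0 : (0 : ℝ) ≤ 1 / n := by positivity
    have hs1 : (1 : ℝ) / n ≤ 1 := by
      rw [div_le_one hnR]
      exact_mod_cast hn
    have hA : ∀ j : ℕ, j ≤ n → (Ph μ c k ((j : ℝ) / n) + Λ) * (n * b - j + 1)
        ≤ Λ * (n * b + 1) + j * (C * Real.sqrt (1 / n) ^ 3 * (n * b)) := by
      intro j
      induction j with
      | zero =>
        intro _
        have e0 : (((0 : ℕ) : ℝ)) / n = 0 := by simp
        rw [e0, hP0]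
        simp
      | succ j ih =>
        intro hj
        have hjn : (j : ℝ) + 1 ≤ n := by exact_mod_cast hj
        have hj0 : (0 : ℝ) ≤ j := Nat.cast_nonneg j
        have ihj := ih (by omega)
        have ha0 : (0 : ℝ) ≤ (j : ℝ) / n := by positivity
        have ha1 : (j : ℝ) / n < 1 := by rw [div_lt_one hnR]; linarith
        have h1 := Ph_step h hkk hK hc hc1 hk ha0 hs0 hs1
        have h2 := KK_bound h hkk hK hc hc1 hk ha0 (ha1.trans hb)
        have e1 : ((((j + 1 : ℕ) : ℝ)) / n) = (j : ℝ) / n + 1 / n := by push_cast; ring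
        rw [e1]
        push_cast
        set P := Ph μ c k ((j : ℝ) / n) with hP
        set I := ∫ z, KK c K z ∂(sc ((j : ℝ) / n) μ) with hI
        have hnb : 0 < n * b - j := by nlinarith
        have h3 : (n * b - j) * I ≤ n * (2 * Λ + 2 * P) := by
          have : (b - (j : ℝ) / n) * I * n = (n * b - j) * I := by field_simp
          rw [← this, hΛ]
          nlinarith
        have h4 : 1 / (n : ℝ) / 2 * I * (n * b - j) ≤ Λ + P := by
          have : 1 / (n : ℝ) / 2 * I * (n * b - j) = ((n * b - j) * I) / (2 * n) := by field_simp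
          rw [this, div_le_iff₀ (by positivity)]
          linarith
        have hb0 : 0 ≤ C * Real.sqrt (1 / n) ^ 3 := by positivity
        calc (Ph μ c k ((j : ℝ) / n + 1 / n) + Λ) * (n * b - (j + 1) + 1)
            = (Ph μ c k ((j : ℝ) / n + 1 / n) + Λ) * (n * b - j) := by ring
          _ ≤ (P + 1 / (n : ℝ) / 2 * I + C * Real.sqrt (1 / n) ^ 3 + Λ) * (n * b - j) := by gcongr
          _ = (P + Λ) * (n * b - j) + 1 / (n : ℝ) / 2 * I * (n * b - j)
              + C * Real.sqrt (1 / n) ^ 3 * (n * b - j) := by ring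
          _ ≤ (P + Λ) * (n * b - j) + (Λ + P) + C * Real.sqrt (1 / n) ^ 3 * (n * b) := by
              gcongr
              linarith
          _ = (P + Λ) * (n * b - j + 1) + C * Real.sqrt (1 / n) ^ 3 * (n * b) := by ring
          _ ≤ _ := by linarith
    have h1 := hA n le_rfl
    rw [div_self hnR.ne'] at h1
    have h2 : Real.sqrt (1 / (n : ℝ)) ^ 2 = 1 / n := Real.sq_sqrt (by positivity)
    have h3 : (n : ℝ) * (C * Real.sqrt (1 / n) ^ 3 * (n * b)) = n * (C * b * Real.sqrt (1 / n)) := by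
      calc (n : ℝ) * (C * Real.sqrt (1 / n) ^ 3 * (n * b))
          = n * (C * b * Real.sqrt (1 / n)) * (n * Real.sqrt (1 / n) ^ 2) := by ring
        _ = _ := by rw [h2]; field_simp
    rw [h3] at h1
    have e1 : (Ph μ c k 1 + Λ) * (b - 1 + 1 / n) = ((Ph μ c k 1 + Λ) * (n * b - n + 1)) / n := by
      field_simp
    have e2 : Λ * (b + 1 / n) + C * b * Real.sqrt (1 / n)
        = (Λ * (n * b + 1) + n * (C * b * Real.sqrt (1 / n))) / n := by
      field_simp
    rw [e1, e2]
    gcongr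
  have hl1 : Filter.Tendsto (fun n : ℕ => (Ph μ c k 1 + Λ) * (b - 1 + 1 / n)) Filter.atTop
      (nhds ((Ph μ c k 1 + Λ) * (b - 1 + 0))) :=
    (tendsto_const_nhds.add tendsto_one_div_atTop_nhds_zero_nat).const_mul _
  have hl2 : Filter.Tendsto (fun n : ℕ => Λ * (b + 1 / n) + C * b * Real.sqrt (1 / n)) Filter.atTop
      (nhds (Λ * (b + 0) + C * b * Real.sqrt 0)) := by
    apply Filter.Tendsto.add
    · exact (tendsto_const_nhds.add tendsto_one_div_atTop_nhds_zero_nat).const_mul _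
    · exact ((Real.continuous_sqrt.tendsto 0).comp tendsto_one_div_atTop_nhds_zero_nat).const_mul _
  have hfin := le_of_tendsto_of_tendsto hl1 hl2 (by
    filter_upwards [Filter.eventually_gt_atTop 0] with n hn
    exact key n hn)
  rw [Real.sqrt_zero] at hfin
  have hb1 : 0 < b - 1 := by linarith
  have : Ph μ c k 1 * (b - 1) ≤ Λ := by nlinarith
  calc Ph μ c k 1 ≤ Λ / (b - 1) := by rw [le_div_iff₀ hb1]; exact this
    _ = _ := by rw [hΛ]; field_simp

omit [Fintype ι] in
theorem CG.of_hasGaussianLaw {Ω : Type*} [MeasurableSpace Ω] {P : Measure Ω} [IsProbabilityMeasure P]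
    {X : Ω → ι → ℝ} (hX : HasGaussianLaw X P) (hX0 : ∀ i, ∫ w, X w i ∂P = 0) :
    CG (P.map X) (fun i j => ∫ w, X w i * X w j ∂P) := by
  refine ⟨hX.isGaussian_map, fun i => ?_, fun i j => ?_⟩
  · rw [integral_map hX.aemeasurable (measurable_pi_apply i).aestronglyMeasurable]
    exact hX0 i
  · exact integral_map (f := fun y : ι → ℝ => y i * y j) hX.aemeasurable
      ((measurable_pi_apply i).mul (measurable_pi_apply j)).aestronglyMeasurable

end GV

open GV in
theorem kahane_sqrt {Ω Ω' ι : Type*} [MeasurableSpace Ω] [MeasurableSpace Ω'] [Fintype ι]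
    {P : Measure Ω} {P' : Measure Ω'} [IsProbabilityMeasure P] [IsProbabilityMeasure P']
    {X : Ω → ι → ℝ} {Y : Ω' → ι → ℝ} (hX : HasGaussianLaw X P) (hY : HasGaussianLaw Y P')
    (hX0 : ∀ i, ∫ w, X w i ∂P = 0) (hY0 : ∀ i, ∫ w, Y w i ∂P' = 0)
    (hle : ∀ i j, ∫ w, Y w i * Y w j ∂P' ≤ ∫ w, X w i * X w j ∂P)
    {k : ℝ} (hXk : ∀ i, ∫ w, X w i * X w i ∂P = k) (hYk : ∀ i, ∫ w, Y w i * Y w i ∂P' = k)
    {c : ι → ℝ} (hc : ∀ i, 0 ≤ c i) :
    ∫ w, Real.sqrt (∑ i, c i * Real.exp (X w i)) ∂P ≤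
      ∫ w, Real.sqrt (∑ i, c i * Real.exp (Y w i)) ∂P' := by
  have h := kahane_CG (CG.of_hasGaussianLaw hX hX0) (CG.of_hasGaussianLaw hY hY0) (k := k) hXk hYk hle hc
  rw [integral_map hX.aemeasurable (measurable_FF c).aestronglyMeasurable,
    integral_map hY.aemeasurable (measurable_FF c).aestronglyMeasurable] at h
  exact h

open GV in
theorem replica_log {Ω ι : Type*} [MeasurableSpace Ω] [Fintype ι]
    {P : Measure Ω} [IsProbabilityMeasure P]
    {X : Ω → ι → ℝ} (hX : HasGaussianLaw X P) (hX0 : ∀ i, ∫ w, X w i ∂P = 0)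
    {k : ℝ} (hXk : ∀ i, ∫ w, X w i * X w i ∂P = k)
    {K : ι → ι → ℝ} (hK : ∀ i j, ∫ w, X w i * X w j ∂P = K i j) (hKnn : ∀ i j, 0 ≤ K i j)
    {c : ι → ℝ} (hc : ∀ i, 0 ≤ c i) (hc1 : ∑ i, c i = 1) {b : ℝ} (hb : 1 < b) :
    -∫ w, Real.log (∑ i, c i * Real.exp (X w i - k / 2)) ∂P ≤
      (1 / (2 * (b - 1))) * Real.log (∑ i, ∑ j, c i * c j * Real.exp (b * K i j)) := by
  have hcg := CG.of_hasGaussianLaw hX hX0
  have hKK : (fun i j => ∫ w, X w i * X w j ∂P) = K := by
    funext i j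
    exact hK i j
  rw [hKK] at hcg
  have hkk : ∀ i, K i i = k := fun i => by rw [← hK i i, hXk i]
  have h := replica_CG hcg hkk hKnn hc hc1 hb
  unfold Ph at h
  rw [sc_one, integral_map hX.aemeasurable (measurable_U c k 1).log.aestronglyMeasurable] at h
  simp only [U, one_mul] at h
  exact h

end Pool.Agent.Helper98.LogPoly
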